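import Mathlib
import Pool.Agent.W262.RK.Stm2

/-!
# Project RT: definitions

Average of `2 ^ rank` over the elliptic curves with full 2-torsion given by binary forms, and over
all elliptic curves over the rationals whose group of points contains `Z/2 x Z/4` or `Z/2 x Z/6`.
Continues project RK of helper262.
-/

namespace Pool.Agent.W307.RT

open Finset Pool.Agent.W262.RK

variable {J : Type}

/-- the values of the binary linear forms at `(u, v)` -/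
def fv (α β : J → ℤ) (u v : ℤ) (j : J) : ℤ := α j * u + β j * v

/-- the product of the primes of `(z, y]` that divide `f j` exactly once -/
def S1 (z y : ℕ) (f : J → ℤ) (j : J) : ℕ :=
  ∏ p ∈ (PS z y).filter (fun p : ℕ => (p : ℤ) ∣ f j ∧ ¬ (p : ℤ) ^ 2 ∣ f j), p

/-- the product of the primes of `(z, y]` whose square divides `f j` -/
def S2 (z y : ℕ) (f : J → ℤ) (j : J) : ℕ :=
  ∏ p ∈ (PS z y).filter (fun p : ℕ => (p : ℤ) ^ 2 ∣ f j), p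

/-- the values are nonzero and a prime greater than `z` divides at most one of them -/
def Gd (z : ℕ) (f : J → ℤ) : Prop :=
  (∀ j, f j ≠ 0) ∧ ∀ p : ℕ, p.Prime → z < p → ∀ j l, j ≠ l → ¬ ((p : ℤ) ∣ f j ∧ (p : ℤ) ∣ f l)

variable [Fintype J] [DecidableEq J]

/-- the forms of the class `k` -/
def fc (cls : J → Fin 4) (k : Fin 3) : Finset J := univ.filter (fun l => cls l = k.castSucc)

/-- `F_k = a_k ∏ f_l ^ μ_l` over the forms of the class `k` -/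
def FM (cls : J → Fin 4) (a : Fin 3 → ℤ) (μ : J → ℕ) (f : J → ℤ) (k : Fin 3) : ℤ :=
  a k * ∏ l ∈ fc cls k, f l ^ μ l

/-- the partner class -/
def cpM (c : Fin 4) : Fin 3 := if c = 0 then 1 else 0

/-- the sign -/
def sgM (c : Fin 4) : ℤ := if c = 2 then 1 else -1

/-- the constants -/
def kapM (cls : J → Fin 4) (a : Fin 3 → ℤ) (μ : J → ℕ) (α β : J → ℤ) (j : J) : ℤ :=
  sgM (cls j) * (a (cpM (cls j)) * ∏ l ∈ fc cls (cpM (cls j)), Res α β j l ^ μ l)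

/-- the local hypotheses on `A`, `B` for the class `c`, with multiplicities -/
def LocM (c : Fin 4) (κ : ℤ) (p : ℕ) (A B : ℤ) : Prop :=
  if c = 0 then (p : ℤ) ∣ A ∧ ¬ (p : ℤ) ∣ B ∧ jacobiSym (κ * (-B)) p = 1 ∧
    (Odd (padicValInt p A) ∨ jacobiSym κ p = 1)
  else if c = 1 then (p : ℤ) ∣ B ∧ ¬ (p : ℤ) ∣ A ∧ jacobiSym (κ * (-A)) p = 1 ∧
    (Odd (padicValInt p B) ∨ jacobiSym κ p = 1)
  else (p : ℤ) ∣ A - B ∧ ¬ (p : ℤ) ∣ A ∧ jacobiSym (κ * A) p = 1 ∧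
    (Odd (padicValInt p (A - B)) ∨ jacobiSym κ p = 1)

/-- the curve `y² = x³ + A x + B` -/
def Sh (A B : ℤ) : WeierstrassCurve ℚ := ⟨0, 0, 0, (A : ℚ), (B : ℚ)⟩

/-- there are a point of order `m` and a point of order two that is not a multiple of it -/
def HasT (m : ℕ) (W : WeierstrassCurve ℚ) : Prop :=
  ∃ P Q : W.toAffine.Point, addOrderOf P = m ∧ addOrderOf Q = 2 ∧ Q ∉ AddSubgroup.zmultiples P

open Classical in
/-- the elliptic curves `y² = x³ + A x + B` of height at most `H`, minimal, with a subgroup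
`Z/2 x Z/m` -/
noncomputable def Cv (m H : ℕ) : Finset (ℤ × ℤ) :=
  ((Icc (-(H : ℤ)) H) ×ˢ (Icc (-(H : ℤ)) H)).filter (fun c : ℤ × ℤ =>
    4 * c.1 ^ 3 + 27 * c.2 ^ 2 ≠ 0 ∧ 4 * |c.1| ^ 3 ≤ H ∧ 27 * c.2 ^ 2 ≤ H ∧
    (∀ p : ℕ, p.Prime → ¬ ((p : ℤ) ^ 4 ∣ c.1 ∧ (p : ℤ) ^ 6 ∣ c.2)) ∧ HasT m (Sh c.1 c.2))

/-- parametrisation of `Cv m` by coprime pairs `(a, b)` of size at most `(C H) ^ (1 / k)`: the curve
is isomorphic to `y² = x (x + M a b) (x + N a b)` -/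
def PAR (m k : ℕ) (M N : ℤ → ℤ → ℤ) : Prop :=
  ∃ (C : ℕ) (F : ℤ × ℤ → ℤ × ℤ), ∀ H : ℕ, Set.InjOn F (Cv m H : Set (ℤ × ℤ)) ∧
    ∀ c ∈ Cv m H, IsCoprime (F c).1 (F c).2 ∧ M (F c).1 (F c).2 ≠ 0 ∧ N (F c).1 (F c).2 ≠ 0 ∧
      M (F c).1 (F c).2 ≠ N (F c).1 (F c).2 ∧
      (F c).1.natAbs ^ k ≤ C * H ∧ (F c).2.natAbs ^ k ≤ C * H ∧
      Module.finrank ℤ (Sh c.1 c.2).toAffine.Point =
        Module.finrank ℤ (EAB (-(M (F c).1 (F c).2)) (-(N (F c).1 (F c).2))).toAffine.Point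

/-- there are many such curves -/
def LOW (m k : ℕ) : Prop :=
  ∃ (c : ℝ) (C T0 : ℕ), 0 < c ∧ ∀ T H : ℕ, T0 ≤ T → C * T ^ k ≤ H → c * T ^ 2 ≤ ((Cv m H).card : ℝ)

/-- the forms for `Z/2 x Z/4` -/
def M4 (a _b : ℤ) : ℤ := a ^ 2

/-- the forms for `Z/2 x Z/4` -/
def N4 (_a b : ℤ) : ℤ := b ^ 2

/-- the forms for `Z/2 x Z/6` -/
def M6 (u v : ℤ) : ℤ := u ^ 3 * (u + 2 * v)

/-- the forms for `Z/2 x Z/6` -/
def N6 (u v : ℤ) : ℤ := v ^ 3 * (v + 2 * u)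

end Pool.Agent.W307.RT
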