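import Mathlib
import Pool.Agent.W307.RT.Defs

/-!
# Project RT: statements of the parts
-/

namespace Pool.Agent.W307.RT

open Finset Pool.Agent.W262.RK

/-- SVR2: upper bound sieve in a residue class, uniform in the forms. -/
def SVR2 : Prop := ∀ (J : Type) [Fintype J] [DecidableEq J] (z : ℕ), 2 * Fintype.card J + 2 ≤ z →
  ∃ (C : ℝ) (K y0 : ℕ), 0 ≤ C ∧ 1 ≤ K ∧ ∀ X y : ℕ, y0 ≤ y → z < y → y ^ K ≤ X →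
  ∀ (α β : J → ℤ) (m M r : ℕ), 1 ≤ m → m ∣ M → M ≠ 0 → m ^ 4 ≤ X →
  (∀ p ∈ PS z y, ¬ p ∣ M → (∀ j, ¬ (p : ℤ) ∣ α j) ∧ ∀ j l, j ≠ l → ¬ (p : ℤ) ∣ Res α β j l) →
    (((Icc 1 X).filter (fun t : ℕ => t ≡ r [MOD m] ∧ ∀ p ∈ PS z y, ¬ p ∣ M →
      ∀ j, ¬ (p : ℤ) ∣ ff α β t j)).card : ℝ) ≤
      C * (X / m) * (∏ p ∈ M.primeFactors.filter (fun p => p ∈ PS z y),
        (p : ℝ) / ((p : ℝ) - Fintype.card J)) / (Real.log y) ^ (Fintype.card J)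

/-- AVH: the average of a multiplicative function close to one. -/
def AVH : Prop := ∀ c z : ℕ, 2 * c + 2 ≤ z → ∃ C : ℝ, 0 ≤ C ∧ ∀ X : ℕ,
  ∑ v ∈ Icc 1 X, ∏ p ∈ v.primeFactors.filter (fun p => z < p), (p : ℝ) / ((p : ℝ) - c) ≤ C * X

/-- CNT2: the number of coprime pairs with given small prime factors of the values of the forms. -/
def CNT2 : Prop := ∀ (J : Type) [Fintype J] [DecidableEq J] (α β : J → ℤ) (z : ℕ), Bg α β z →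
  ∃ (C : ℝ) (K y0 : ℕ), 0 ≤ C ∧ 1 ≤ K ∧ ∀ X y Y : ℕ, y0 ≤ y → z < y → y ^ K ≤ X →
  ∀ s ∈ Tup J z y, ∀ v ∈ Tup J z y, ∀ u ∈ Tup J y Y, (∏ j, s j * v j * u j) ^ 8 ≤ X →
    (((Icc 1 X ×ˢ Icc 1 X).filter (fun t : ℕ × ℕ => t.1.Coprime t.2 ∧
      S1 z y (fv α β (t.1 : ℤ) (t.2 : ℤ)) = s ∧ S2 z y (fv α β (t.1 : ℤ) (t.2 : ℤ)) = v ∧
      ∀ j, (u j : ℤ) ∣ fv α β (t.1 : ℤ) (t.2 : ℤ) j)).card : ℝ) ≤
      C * X ^ 2 * (∏ j, gw 1 (Fintype.card J) (s j)) *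
        (∏ j, gw 1 (Fintype.card J) (v j) / v j) * (∏ j, 1 / (u j : ℝ)) /
        (Real.log y) ^ (Fintype.card J)

/-- ANT: summation of a function with a local majorant (Nair, Tenenbaum), over an abstract set. -/
def ANT : Prop := ∀ (J : Type) [Fintype J] [DecidableEq J] (Ω : Type) (T : ℕ → Finset Ω)
  (f : Ω → J → ℤ) (S : ℕ → ℝ) (z : ℕ) (G : (J → ℕ) → ℝ) (R : Ω → ℝ) (C C' D : ℝ) (K y0 : ℕ),
  2 * Fintype.card J + 2 ≤ z → (∀ X Y, X ≤ Y → T X ⊆ T Y) → (∀ X, 1 ≤ X → 1 ≤ S X) →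
  (∀ X, ∀ ω ∈ T X, Gd z (f ω)) → (∀ s, 0 ≤ G s) → (∀ ω, 0 ≤ R ω) → 0 ≤ C → 1 ≤ D → 1 ≤ K →
  (∀ y, z < y → ∀ s e : J → ℕ, (fun j => s j * e j) ∈ Tup J z y →
    G (fun j => s j * e j) ≤ 4 ^ (∑ j, (e j).primeFactors.card) * G s) →
  (∀ y, z < y → ∑ s ∈ Tup J z y, G s * ∏ j, gw 1 (Fintype.card J) (s j) ≤
    C' * (Real.log y) ^ (Fintype.card J)) →
  (∀ X y Y k : ℕ, y0 ≤ y → z < y → y ^ K ≤ X → X < (y + 1) ^ k → ∀ s ∈ Tup J z y,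
    ∀ v ∈ Tup J z y, ∀ u ∈ Tup J y Y, (∏ j, s j * v j * u j) ^ 8 ≤ X →
    ∀ T' : Finset Ω, T' ⊆ T X → (∀ ω ∈ T', S1 z y (f ω) = s ∧ S2 z y (f ω) = v ∧
      ∀ j, (u j : ℤ) ∣ f ω j) →
    ∑ ω ∈ T', R ω ≤
      C * D ^ k * S X * (G s * ∏ j, gw 1 (Fintype.card J) (s j)) *
        (∏ j, 4 ^ (v j).primeFactors.card * (gw 1 (Fintype.card J) (v j) / v j)) *
        (∏ j, 1 / (u j : ℝ)) / (Real.log y) ^ (Fintype.card J)) →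
  ∃ C2 : ℝ, ∀ X : ℕ, 1 ≤ X → ∑ ω ∈ T X, R ω ≤ C2 * S X

/-- LOCM: the local conditions hold for the points of the curve, with multiplicities. -/
def LOCM : Prop := ∀ (c : Fin 4) (κ : ℤ) (p : ℕ) [Fact p.Prime] (A B : ℤ), c ≠ 3 → p ≠ 2 →
  ¬ (p : ℤ) ∣ κ → A ≠ 0 → B ≠ 0 → A ≠ B → LocM c κ p A B → ∀ x y : ℚ, y ≠ 0 →
  y ^ 2 = x * (x - A) * (x - B) → ∀ e1 e2 : ℤ, Squarefree e1 → Squarefree e2 →
  IsSquare ((x * e1 : ℚ) : ℚ_[p]) → IsSquare (((x - A) * e2 : ℚ) : ℚ_[p]) →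
    LL c (fun _ => κ) false p (dv p e1) (dv p e2) (sgn p e1) (sgn p e2)

/-- RANK2: the bound of the rank by the local count at a point `(u, v)`. -/
def RANK2 : Prop := ∀ (J : Type) [Fintype J] [DecidableEq J] (cls : J → Fin 4) (a : Fin 3 → ℤ)
  (μ : J → ℕ) (α β : J → ℤ) (z : ℕ), (∀ j, cls j ≠ 3) → (∀ k, a k ≠ 0) → (∀ j, 1 ≤ μ j) →
  Bg α β z → (∀ p : ℕ, p.Prime → z < p → ∀ k, ¬ (p : ℤ) ∣ a k) →
  (∀ k, Even (∑ l ∈ fc cls k, μ l)) → (∀ j, kapM cls a μ α β j ≠ 0) →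
  (∀ j, (kapM cls a μ α β j).natAbs ≤ z) →
  (∀ j, Odd (μ j) ∨ IsSquare (kapM cls a μ α β j)) →
  (∀ u v : ℤ, FM cls a μ (fv α β u v) 0 - FM cls a μ (fv α β u v) 1 =
    FM cls a μ (fv α β u v) 2) →
  ∀ (X y k : ℕ) (u v : ℤ), IsCoprime u v → (∀ j, fv α β u v j ≠ 0) →
  (∀ j, (fv α β u v j).natAbs ≤ X ^ 2) → 1 ≤ X → 1 ≤ y → X < (y + 1) ^ k →
    2 ^ Module.finrank ℤ
      (EAB (FM cls a μ (fv α β u v) 0) (FM cls a μ (fv α β u v) 1)).toAffine.Point ≤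
      4 ^ (z + 2) * (16 ^ Fintype.card J) ^ k *
        4 ^ (∑ j, (S2 z y (fv α β u v) j).primeFactors.card) *
        NL (∏ j, S1 z y (fv α β u v) j)
          (LLs cls (fun j _ => kapM cls a μ α β j) (S1 z y (fv α β u v)) ∅)

/-- UB4: `∑ χ₄(p) / p` is bounded above. -/
def UB4 : Prop := ∀ z : ℕ, ∃ C : ℝ, ∀ y : ℕ, z < y → ∑ p ∈ PS z y, x4 true p / (p : ℝ) ≤ C

/-- FSB: bound for a sum over tuples of coprime divisors, one character for each variable. -/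
def FSB : Prop := ∀ (ι : Type) [Fintype ι] [DecidableEq ι] (w : ι → ℝ) (c : ℕ),
  (∀ i, 0 < w i ∧ w i ≤ 1 / 2) → ∃ z0 A : ℕ, ∀ z, z0 ≤ z → ∃ C : ℝ, 1 ≤ C ∧
  ∀ (y R : ℕ) (W : Finset ι) (ψ φ : ι → ℕ → ℝ) (B : ι → ℝ), z < y → R ≠ 0 →
  (∀ i ∈ W, ψ i 1 = 1) → (∀ i ∈ W, ∀ m n, m * n ∣ PP z y → ψ i (m * n) = ψ i m * ψ i n) →
  (∀ i ∈ W, ∀ p, |φ i p| ≤ 1) → (∀ i ∈ W, ∀ p ∈ PS z y, ¬ p ∣ R → ψ i p = φ i p) →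
  (∀ i ∈ W, ∑ p ∈ PS z y, φ i p / (p : ℝ) ≤ B i) →
    |∑ d ∈ (Tup ι z y).filter (fun d => (∀ i, (d i).Coprime R) ∧ ∀ i, i ∉ W → d i = 1),
      ∏ i ∈ W, (gw (w i) c (d i) * ψ i (d i))| ≤
      C * Real.exp (∑ i ∈ W, w i * B i) * ∏ p ∈ R.primeFactors, (1 + (A : ℝ) / (p : ℝ))

open Classical in
/-- the indices without symbols with the indices of `N` -/
noncomputable def QN {ι : Type} [Fintype ι] [DecidableEq ι] (L : ι → ι → Bool) (N : Finset ι) :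
    Finset ι := univ.filter (fun i => i ∉ N ∧ ∀ n ∈ N, L i n = false ∧ L n i = false)

/-- RAT: the refined abstract bound: the indices of `N` have the character modulo 4. -/
def RAT : Prop := ∀ (ι : Type) [Fintype ι] [DecidableEq ι] (w : ι → ℝ) (L : ι → ι → Bool)
  (κ : ι → ℤ) (c : ℕ) (K : ℝ) (N : Finset ι),
  (∀ i, 0 < w i ∧ w i ≤ 1 / 2) → (∀ i, L i i = false) → (∀ i, κ i ≠ 0) →
  (∀ n ∈ N, ∃ k : ℤ, κ n = -(k * k)) → (∀ n ∈ N, ∀ m ∈ N, L n m = false) →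
  (∀ i ∈ QN L N, ∀ j ∈ QN L N, L i j = false) → ∑ i ∈ QN L N, w i ≤ K →
  (∀ U : Finset ι, (∀ i ∈ U, ∀ j ∈ U, L i j = L j i) → (∃ k ∈ U, k ∉ N ∧ k ∉ QN L N) →
    ∑ i ∈ U, w i ≤ K) →
  (∀ b, b ∉ N → b ∉ QN L N →
    ∑ i ∈ (QN L N ∪ N).filter (fun i => L i b = L b i), w i < K) →
  ∃ z0 : ℕ, ∀ z, z0 ≤ z → ∃ C : ℝ, ∀ y, z < y →
    |∑ d ∈ Tup ι z y, (∏ i, gw (w i) c (d i)) * Sym L κ d| ≤ C * (Real.log y) ^ K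

/-- AVG2: the average over the coprime pairs. -/
def AVG2 : Prop := ∀ (J : Type) [Fintype J] [DecidableEq J] (cls : J → Fin 4) (a : Fin 3 → ℤ)
  (μ : J → ℕ) (α β : J → ℤ), (∀ j, cls j ≠ 3) → (∀ k, a k ≠ 0) → (∀ j, 1 ≤ μ j) →
  (∀ j, α j ≠ 0) → (∀ j l, j ≠ l → Res α β j l ≠ 0) →
  (∀ k, Even (∑ l ∈ fc cls k, μ l)) → (∀ j, Odd (μ j) ∨ IsSquare (kapM cls a μ α β j)) →
  (∀ u v : ℤ, FM cls a μ (fv α β u v) 0 - FM cls a μ (fv α β u v) 1 =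
    FM cls a μ (fv α β u v) 2) →
  (∃ z0 : ℕ, ∀ z, z0 ≤ z → ∃ C' : ℝ, ∀ y, z < y →
    ∑ s ∈ Tup J z y, NB cls (fun j _ => kapM cls a μ α β j) s *
      ∏ j, gw 1 (Fintype.card J) (s j) ≤ C' * (Real.log y) ^ (Fintype.card J)) →
  ∃ C : ℝ, ∀ X : ℕ, 1 ≤ X → ∑ t ∈ (Icc 1 X ×ˢ Icc 1 X).filter (fun t : ℕ × ℕ =>
      t.1.Coprime t.2 ∧ ∀ j, fv α β (t.1 : ℤ) (t.2 : ℤ) j ≠ 0),
    (2 : ℝ) ^ Module.finrank ℤ (EAB (FM cls a μ (fv α β (t.1 : ℤ) (t.2 : ℤ)) 0)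
      (FM cls a μ (fv α β (t.1 : ℤ) (t.2 : ℤ)) 1)).toAffine.Point ≤ C * X ^ 2

/-- ISO: shifts and scalings of the variable. -/
def ISO : Prop := ∀ a2 a4 a6 r u : ℚ, u ≠ 0 →
  Nonempty ((⟨0, a2, 0, a4, a6⟩ : WeierstrassCurve ℚ).toAffine.Point ≃+
    (⟨0, (a2 + 3 * r) / u ^ 2, 0, (a4 + 2 * r * a2 + 3 * r ^ 2) / u ^ 4,
      (a6 + r * a4 + r ^ 2 * a2 + r ^ 3) / u ^ 6⟩ : WeierstrassCurve ℚ).toAffine.Point)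

/-- PAR4: parametrisation of the curves with a subgroup `Z/2 x Z/4`. -/
def PAR4 : Prop := PAR 4 12 M4 N4

/-- PAR6: parametrisation of the curves with a subgroup `Z/2 x Z/6`. -/
def PAR6 : Prop := PAR 6 24 M6 N6

/-- LOW4: there are many curves with a subgroup `Z/2 x Z/4`. -/
def LOW4 : Prop := LOW 4 12

/-- LOW6: there are many curves with a subgroup `Z/2 x Z/6`. -/
def LOW6 : Prop := LOW 6 24

end Pool.Agent.W307.RT
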