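import Mathlib
import Pool.Agent.W307.RT.Stm

/-! Project RT: from the sums over quadrants to the sum over a box, and to the curves. -/

namespace Pool.Agent.W307.RT

open Finset Pool.Agent.W262.RK

/-- the box -/
noncomputable def Box (T : ℕ) : Finset (ℤ × ℤ) := Icc (-(T : ℤ)) T ×ˢ Icc (-(T : ℤ)) T

lemma mem_Box {T : ℕ} {t : ℤ × ℤ} : t ∈ Box T ↔ t.1.natAbs ≤ T ∧ t.2.natAbs ≤ T := by
  unfold Box
  rw [mem_product, mem_Icc, mem_Icc]
  omega

/-- the signs -/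
def sgs : Finset (ℤ × ℤ) := {1, -1} ×ˢ {1, -1}

lemma mem_sgs {e : ℤ × ℤ} : e ∈ sgs ↔ (e.1 = 1 ∨ e.1 = -1) ∧ (e.2 = 1 ∨ e.2 = -1) := by
  simp [sgs]

/-- the box and the quadrants -/
lemma box_le (g : ℤ × ℤ → ℝ) (hg : ∀ t, 0 ≤ g t) (hc : ∀ t, g t ≠ 0 → IsCoprime t.1 t.2)
    (X : ℕ) : ∑ t ∈ Box X, g t ≤
      (∑ e ∈ sgs, ∑ t ∈ Icc 1 X ×ˢ Icc 1 X, g (e.1 * ((t.1 : ℕ) : ℤ), e.2 * ((t.2 : ℕ) : ℤ))) +
        (g (0, 1) + g (0, -1) + g (1, 0) + g (-1, 0)) := by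
  classical
  have h1 := sum_filter_add_sum_filter_not (Box X) (fun t => t.1 ≠ 0 ∧ t.2 ≠ 0) g
  rw [← h1]
  apply add_le_add
  · rw [← sum_product' (s := sgs) (t := Icc 1 X ×ˢ Icc 1 X)
      (f := fun e t => g (e.1 * ((t.1 : ℕ) : ℤ), e.2 * ((t.2 : ℕ) : ℤ)))]
    set φ : ℤ × ℤ → (ℤ × ℤ) × (ℕ × ℕ) := fun t =>
      ((SignType.sign t.1, SignType.sign t.2), (t.1.natAbs, t.2.natAbs)) with hφ
    set h : (ℤ × ℤ) × (ℕ × ℕ) → ℝ := fun y =>
      g (y.1.1 * ((y.2.1 : ℕ) : ℤ), y.1.2 * ((y.2.2 : ℕ) : ℤ)) with hh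
    have hback : ∀ t : ℤ × ℤ, ((φ t).1.1 * (((φ t).2.1 : ℕ) : ℤ),
        (φ t).1.2 * (((φ t).2.2 : ℕ) : ℤ)) = t := by
      intro t
      rw [hφ]
      refine Prod.ext ?_ ?_
      · exact Int.sign_mul_natAbs t.1 ▸ by simp [Int.sign_eq_sign]
      · exact Int.sign_mul_natAbs t.2 ▸ by simp [Int.sign_eq_sign]
    have hinj : Set.InjOn φ ((Box X).filter (fun t => t.1 ≠ 0 ∧ t.2 ≠ 0) : Set (ℤ × ℤ)) := by
      intro t _ t' _ htt
      rw [← hback t, ← hback t', htt]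
    have h2 : ∑ t ∈ (Box X).filter (fun t => t.1 ≠ 0 ∧ t.2 ≠ 0), g t =
        ∑ y ∈ ((Box X).filter (fun t => t.1 ≠ 0 ∧ t.2 ≠ 0)).image φ, h y := by
      rw [sum_image hinj]
      apply sum_congr rfl
      intro t _
      rw [hh]
      simp only
      rw [hback]
    rw [h2]
    apply sum_le_sum_of_subset_of_nonneg
    · intro y hy
      obtain ⟨t, ht, rfl⟩ := mem_image.1 hy
      rw [mem_filter, mem_Box] at ht
      obtain ⟨⟨h3, h4⟩, h5, h6⟩ := ht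
      rw [mem_product, mem_sgs, mem_product, mem_Icc, mem_Icc, hφ]
      refine ⟨⟨?_, ?_⟩, ⟨?_, h3⟩, ⟨?_, h4⟩⟩
      · rcases lt_or_gt_of_ne h5 with h | h
        · right; simp [sign_neg h]
        · left; simp [sign_pos h]
      · rcases lt_or_gt_of_ne h6 with h | h
        · right; simp [sign_neg h]
        · left; simp [sign_pos h]
      · exact Int.natAbs_pos.2 h5
      · exact Int.natAbs_pos.2 h6
    · intro y _ _
      exact hg _
  · have h3 : ∑ t ∈ (Box X).filter (fun t => ¬ (t.1 ≠ 0 ∧ t.2 ≠ 0)), g t ≤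
        ∑ t ∈ ({(0, 1), (0, -1), (1, 0), (-1, 0)} : Finset (ℤ × ℤ)), g t := by
      rw [← sum_filter_ne_zero]
      apply sum_le_sum_of_subset_of_nonneg
      · intro t ht
        rw [mem_filter, mem_filter] at ht
        obtain ⟨⟨_, h4⟩, h5⟩ := ht
        have h6 := hc t h5
        obtain ⟨a, b⟩ := t
        simp only at h4 h6
        rw [not_and_or, not_not, not_not] at h4
        rw [Int.isCoprime_iff_gcd_eq_one] at h6
        simp only [mem_insert, mem_singleton, Prod.mk.injEq]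
        rcases h4 with h4 | h4
        · subst h4
          rw [Int.gcd_zero_left] at h6
          omega
        · subst h4
          rw [Int.gcd_zero_right] at h6
          omega
      · intro t _ _
        exact hg t
    refine h3.trans (le_of_eq ?_)
    rw [sum_insert (by simp), sum_insert (by simp), sum_insert (by simp), sum_singleton]
    ring

/-- the change of variables `(a, b) ↦ (a, b - q a)` -/
lemma box_shift (g : ℤ × ℤ → ℝ) (hg : ∀ t, 0 ≤ g t) (q T : ℕ) :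
    ∑ t ∈ Box T, g (t.1, t.2 - q * t.1) ≤ ∑ t ∈ Box ((q + 1) * T), g t := by
  classical
  have hinj : Set.InjOn (fun t : ℤ × ℤ => (t.1, t.2 - q * t.1)) (Box T : Set (ℤ × ℤ)) := by
    rintro ⟨a, b⟩ _ ⟨a', b'⟩ _ h
    simp only [Prod.mk.injEq] at h
    obtain ⟨h1, h2⟩ := h
    subst h1
    rw [Prod.mk.injEq]
    exact ⟨rfl, by linarith⟩
  rw [← sum_image (f := g) hinj]
  apply sum_le_sum_of_subset_of_nonneg
  · intro y hy
    obtain ⟨t, ht, rfl⟩ := mem_image.1 hy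
    rw [mem_Box] at ht ⊢
    have h1 : (t.2 - q * t.1).natAbs ≤ t.2.natAbs + (q * t.1).natAbs := Int.natAbs_sub_le _ _
    have h2 : ((q : ℤ) * t.1).natAbs = q * t.1.natAbs := by
      rw [Int.natAbs_mul, Int.natAbs_natCast]
    have h3 : q * t.1.natAbs ≤ q * T := Nat.mul_le_mul_left q ht.1
    have h4 : (q + 1) * T = q * T + T := by ring
    refine ⟨?_, ?_⟩
    · simp only
      omega
    · simp only
      omega
  · intro t _ _
    exact hg t

/-- from the box to the curves -/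
lemma final_of {m k : ℕ} {M N : ℤ → ℤ → ℤ} (hk : 1 ≤ k) (hP : PAR m k M N) (hL : LOW m k)
    (hbox : ∃ C : ℝ, 0 ≤ C ∧ ∀ T : ℕ, 1 ≤ T → ∑ t ∈ (Box T).filter (fun t : ℤ × ℤ =>
      IsCoprime t.1 t.2 ∧ M t.1 t.2 ≠ 0 ∧ N t.1 t.2 ≠ 0 ∧ M t.1 t.2 ≠ N t.1 t.2),
      (2 : ℝ) ^ Module.finrank ℤ (EAB (-(M t.1 t.2)) (-(N t.1 t.2))).toAffine.Point ≤
        C * (T : ℝ) ^ 2) :
    ∃ C : ℝ, ∀ H : ℕ, ∑ c ∈ Cv m H,
      (2 : ℝ) ^ Module.finrank ℤ (Sh c.1 c.2).toAffine.Point ≤ C * (Cv m H).card := by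
  classical
  obtain ⟨C0', F, hF⟩ := hP
  obtain ⟨c, C1, T0, hc, hlow⟩ := hL
  obtain ⟨C, hC, hb⟩ := hbox
  set C0 := C0' + 1 with hC0
  have hF' : ∀ H : ℕ, ∀ x ∈ Cv m H, (F x).1.natAbs ^ k ≤ C0 * H ∧ (F x).2.natAbs ^ k ≤ C0 * H := by
    intro H x hx
    obtain ⟨_, _, _, _, h1, h2, _⟩ := (hF H).2 x hx
    have : C0' * H ≤ C0 * H := Nat.mul_le_mul_right _ (by omega)
    exact ⟨h1.trans this, h2.trans this⟩
  set D := C0 * C1 + 1 with hD
  have hD1 : 1 ≤ D := by omega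
  -- the sum is at most `C T ^ 2`
  have hsum : ∀ H T : ℕ, 1 ≤ T → (∀ x ∈ Cv m H, (F x).1.natAbs ≤ T ∧ (F x).2.natAbs ≤ T) →
      ∑ x ∈ Cv m H, (2 : ℝ) ^ Module.finrank ℤ (Sh x.1 x.2).toAffine.Point ≤ C * (T : ℝ) ^ 2 := by
    intro H T hT hx
    refine le_trans ?_ (hb T hT)
    obtain ⟨hinj, h2⟩ := hF H
    have h3 : ∑ x ∈ Cv m H, (2 : ℝ) ^ Module.finrank ℤ (Sh x.1 x.2).toAffine.Point =
        ∑ t ∈ (Cv m H).image F, (2 : ℝ) ^ Module.finrank ℤ
          (EAB (-(M t.1 t.2)) (-(N t.1 t.2))).toAffine.Point := by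
      rw [sum_image hinj]
      apply sum_congr rfl
      intro x hx'
      obtain ⟨_, _, _, _, _, _, h4⟩ := h2 x hx'
      rw [h4]
    rw [h3]
    apply sum_le_sum_of_subset_of_nonneg
    · intro t ht
      obtain ⟨x, hx', rfl⟩ := mem_image.1 ht
      obtain ⟨a1, a2, a3, a4, _, _, _⟩ := h2 x hx'
      rw [mem_filter, mem_Box]
      exact ⟨hx x hx', a1, a2, a3, a4⟩
    · intro t _ _
      positivity
  refine ⟨C * ((D * (T0 + 1) : ℕ) : ℝ) ^ 2 + C * (2 * (D : ℝ)) ^ 2 / c, fun H => ?_⟩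
  set K := (Cv m H).card with hK
  by_cases hK0 : K = 0
  · have : Cv m H = ∅ := card_eq_zero.1 hK0
    rw [this, sum_empty, hK0]
    simp
  have hK1 : (1 : ℝ) ≤ K := by exact_mod_cast Nat.one_le_iff_ne_zero.2 hK0
  have hq0 : 0 ≤ C * (2 * (D : ℝ)) ^ 2 / c := by positivity
  have hr0 : 0 ≤ C * ((D * (T0 + 1) : ℕ) : ℝ) ^ 2 := by positivity
  set T := Nat.findGreatest (fun t => t ^ k ≤ C0 * H) (C0 * H) with hT
  have hle : ∀ x : ℕ, x ^ k ≤ C0 * H → x ≤ T := by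
    intro x hx
    apply Nat.le_findGreatest
    · exact (Nat.le_self_pow (by omega) x).trans hx
    · exact hx
  have hTk : T ^ k ≤ C0 * H := by
    have : (fun t => t ^ k ≤ C0 * H) T :=
      Nat.findGreatest_spec (P := fun t => t ^ k ≤ C0 * H) (Nat.zero_le _)
        (by rw [zero_pow (by omega)]; exact Nat.zero_le _)
    exact this
  have hxT : ∀ x ∈ Cv m H, (F x).1.natAbs ≤ T ∧ (F x).2.natAbs ≤ T := fun x hx =>
    ⟨hle _ (hF' H x hx).1, hle _ (hF' H x hx).2⟩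
  rcases Nat.lt_or_ge T (D * (T0 + 1)) with hlt | hge
  · have h1 := hsum H (D * (T0 + 1)) (Nat.mul_pos hD1 (Nat.succ_pos _)) fun x hx =>
      ⟨(hxT x hx).1.trans hlt.le, (hxT x hx).2.trans hlt.le⟩
    calc _ ≤ C * ((D * (T0 + 1) : ℕ) : ℝ) ^ 2 := h1
      _ ≤ C * ((D * (T0 + 1) : ℕ) : ℝ) ^ 2 * K := le_mul_of_one_le_right hr0 hK1
      _ ≤ _ := by
        apply mul_le_mul_of_nonneg_right _ (by linarith)
        linarith
  · have hT1 : 1 ≤ T := (Nat.mul_pos hD1 (Nat.succ_pos _)).trans_le hge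
    have h1 := hsum H T hT1 hxT
    set T' := T / D with hT'
    have hT'0 : T0 + 1 ≤ T' := by
      rw [hT', Nat.le_div_iff_mul_le hD1, mul_comm]
      exact hge
    have h2 : T' * D ≤ T := Nat.div_mul_le_self T D
    have h3 : C1 * T' ^ k ≤ H := by
      have a1 : (T' * D) ^ k ≤ C0 * H := (Nat.pow_le_pow_left h2 k).trans hTk
      rw [mul_pow] at a1
      have a2 : D ≤ D ^ k := Nat.le_self_pow (by omega) D
      have a3 : T' ^ k * (C0 * C1) ≤ C0 * H :=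
        (Nat.mul_le_mul_left _ (by omega : C0 * C1 ≤ D ^ k)).trans a1
      have a4 : C0 * (C1 * T' ^ k) ≤ C0 * H := by
        calc C0 * (C1 * T' ^ k) = T' ^ k * (C0 * C1) := by ring
          _ ≤ _ := a3
      exact Nat.le_of_mul_le_mul_left a4 (by omega)
    have h4 := hlow T' H (by omega) h3
    have h5 : T ≤ 2 * D * T' := by
      have a1 : T < D * (T' + 1) := by
        rw [mul_comm]
        exact Nat.lt_mul_of_div_lt (by rw [← hT']; omega) hD1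
      have a2 : D * (T' + 1) ≤ 2 * D * T' := by nlinarith
      omega
    have h6 : (T : ℝ) ≤ 2 * D * T' := by exact_mod_cast h5
    calc _ ≤ C * (T : ℝ) ^ 2 := h1
      _ ≤ C * (2 * D * T') ^ 2 := by
        apply mul_le_mul_of_nonneg_left _ hC
        exact pow_le_pow_left₀ (Nat.cast_nonneg T) h6 2
      _ = C * (2 * (D : ℝ)) ^ 2 / c * (c * (T' : ℝ) ^ 2) := by
        field_simp
      _ ≤ C * (2 * (D : ℝ)) ^ 2 / c * K := mul_le_mul_of_nonneg_left h4 hq0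
      _ ≤ _ := by
        apply mul_le_mul_of_nonneg_right _ (by linarith)
        linarith

end Pool.Agent.W307.RT
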