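import Mathlib
import Pool.Agent.W307.RT.Box

/-! Project RT: the average over a box for a family given by binary linear forms. -/

namespace Pool.Agent.W307.RT

open Finset Pool.Agent.W262.RK

variable {J : Type} [Fintype J] [DecidableEq J]

omit [Fintype J] [DecidableEq J] in
lemma fv_sign (α β : J → ℤ) (e : ℤ × ℤ) (u v : ℤ) :
    fv (fun j => e.1 * α j) (fun j => e.2 * β j) u v = fv α β (e.1 * u) (e.2 * v) := by
  funext j
  unfold fv
  ring

omit [Fintype J] [DecidableEq J] in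
lemma Res_sign (α β : J → ℤ) (e : ℤ × ℤ) (j l : J) :
    Res (fun j => e.1 * α j) (fun j => e.2 * β j) j l = e.1 * e.2 * Res α β j l := by
  unfold Res
  ring

omit [DecidableEq J] in
lemma kapM_sign (cls : J → Fin 4) (a : Fin 3 → ℤ) (μ : J → ℕ) (α β : J → ℤ)
    (hev : ∀ k, Even (∑ l ∈ fc cls k, μ l)) {e : ℤ × ℤ} (he : e ∈ sgs) (j : J) :
    kapM cls a μ (fun j => e.1 * α j) (fun j => e.2 * β j) j = kapM cls a μ α β j := by
  unfold kapM
  congr 2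
  have h1 : ∀ l, Res (fun j => e.1 * α j) (fun j => e.2 * β j) j l ^ μ l =
      (e.1 * e.2) ^ μ l * Res α β j l ^ μ l := by
    intro l
    rw [Res_sign, mul_pow]
  rw [prod_congr rfl fun l _ => h1 l, prod_mul_distrib, prod_pow_eq_pow_sum]
  have h2 : (e.1 * e.2) ^ (∑ l ∈ fc cls (cpM (cls j)), μ l) = 1 := by
    have h3 : e.1 * e.2 = 1 ∨ e.1 * e.2 = -1 := by
      rw [mem_sgs] at he
      rcases he with ⟨h | h, h' | h'⟩ <;> rw [h, h'] <;> simp
    rcases h3 with h3 | h3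
    · rw [h3, one_pow]
    · rw [h3, (hev _).neg_one_pow]
  rw [h2, one_mul]

omit [DecidableEq J] in
lemma fv_ne_zero {cls : J → Fin 4} {a : Fin 3 → ℤ} {μ : J → ℕ} {f : J → ℤ}
    (hcls : ∀ j, cls j ≠ 3) (hμ : ∀ j, 1 ≤ μ j) (h : ∀ k, FM cls a μ f k ≠ 0) (j : J) :
    f j ≠ 0 := by
  intro hj
  obtain ⟨k, hk⟩ : ∃ k : Fin 3, cls j = k.castSucc := by
    have := hcls j
    revert this
    generalize cls j = c
    revert c
    decide
  apply h k
  unfold FM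
  rw [prod_eq_zero (i := j), mul_zero]
  · simp [fc, hk]
  · rw [hj, zero_pow (by have := hμ j; omega)]

/-- the average over the box -/
lemma fam (hA : AVG2) (cls : J → Fin 4) (a : Fin 3 → ℤ) (μ : J → ℕ) (α β : J → ℤ)
    (hcls : ∀ j, cls j ≠ 3) (ha : ∀ k, a k ≠ 0) (hμ : ∀ j, 1 ≤ μ j) (hα : ∀ j, α j ≠ 0)
    (hres : ∀ j l, j ≠ l → Res α β j l ≠ 0) (hev : ∀ k, Even (∑ l ∈ fc cls k, μ l))
    (hodd : ∀ j, Odd (μ j) ∨ IsSquare (kapM cls a μ α β j))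
    (hid : ∀ u v : ℤ, FM cls a μ (fv α β u v) 0 - FM cls a μ (fv α β u v) 1 =
      FM cls a μ (fv α β u v) 2)
    (hNB : ∃ z0 : ℕ, ∀ z, z0 ≤ z → ∃ C' : ℝ, ∀ y, z < y →
      ∑ s ∈ Tup J z y, NB cls (fun j _ => kapM cls a μ α β j) s *
        ∏ j, gw 1 (Fintype.card J) (s j) ≤ C' * (Real.log y) ^ (Fintype.card J))
    (q : ℕ) (M N : ℤ → ℤ → ℤ) (hM : ∀ u v, FM cls a μ (fv α β u v) 0 = -(M u (v + q * u)))
    (hN : ∀ u v, FM cls a μ (fv α β u v) 1 = -(N u (v + q * u))) :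
    ∃ C : ℝ, 0 ≤ C ∧ ∀ T : ℕ, 1 ≤ T → ∑ t ∈ (Box T).filter (fun t : ℤ × ℤ =>
      IsCoprime t.1 t.2 ∧ M t.1 t.2 ≠ 0 ∧ N t.1 t.2 ≠ 0 ∧ M t.1 t.2 ≠ N t.1 t.2),
      (2 : ℝ) ^ Module.finrank ℤ (EAB (-(M t.1 t.2)) (-(N t.1 t.2))).toAffine.Point ≤
        C * (T : ℝ) ^ 2 := by
  classical
  set g : ℤ × ℤ → ℝ := fun t => if IsCoprime t.1 t.2 ∧ M t.1 (t.2 + q * t.1) ≠ 0 ∧
    N t.1 (t.2 + q * t.1) ≠ 0 ∧ M t.1 (t.2 + q * t.1) ≠ N t.1 (t.2 + q * t.1) then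
    (2 : ℝ) ^ Module.finrank ℤ
      (EAB (-(M t.1 (t.2 + q * t.1))) (-(N t.1 (t.2 + q * t.1)))).toAffine.Point else 0 with hg
  have hg0 : ∀ t, 0 ≤ g t := by
    intro t
    rw [hg]
    simp only
    split_ifs
    · positivity
    · exact le_rfl
  have hgc : ∀ t, g t ≠ 0 → IsCoprime t.1 t.2 := by
    intro t ht
    by_contra h
    apply ht
    rw [hg]
    simp only
    rw [if_neg (fun h' => h h'.1)]
  have hquad : ∀ e ∈ sgs, ∃ C : ℝ, ∀ X : ℕ, 1 ≤ X → ∑ t ∈ Icc 1 X ×ˢ Icc 1 X,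
      g (e.1 * ((t.1 : ℕ) : ℤ), e.2 * ((t.2 : ℕ) : ℤ)) ≤ C * (X : ℝ) ^ 2 := by
    intro e he
    have he' := mem_sgs.1 he
    have he1 : e.1 ≠ 0 := by rcases he'.1 with h | h <;> rw [h] <;> norm_num
    have he2 : e.2 ≠ 0 := by rcases he'.2 with h | h <;> rw [h] <;> norm_num
    have hk := fun j => kapM_sign cls a μ α β hev he j
    obtain ⟨C, hC⟩ := hA J cls a μ (fun j => e.1 * α j) (fun j => e.2 * β j) hcls ha hμ
      (fun j => mul_ne_zero he1 (hα j))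
      (fun j l hjl => by
        rw [Res_sign]
        exact mul_ne_zero (mul_ne_zero he1 he2) (hres j l hjl)) hev
      (fun j => by rw [hk j]; exact hodd j)
      (fun u v => by simp only [fv_sign]; exact hid _ _)
      (by
        have : (fun (j : J) (_ : Fin 3) => kapM cls a μ (fun j => e.1 * α j)
            (fun j => e.2 * β j) j) = fun (j : J) (_ : Fin 3) => kapM cls a μ α β j := by
          funext j _
          exact hk j
        rw [this]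
        exact hNB)
    refine ⟨C, fun X hX => le_trans ?_ (hC X hX)⟩
    rw [sum_filter]
    apply sum_le_sum
    intro t _
    rw [hg]
    simp only
    by_cases h : IsCoprime (e.1 * ((t.1 : ℕ) : ℤ)) (e.2 * ((t.2 : ℕ) : ℤ)) ∧
        M (e.1 * t.1) (e.2 * t.2 + q * (e.1 * t.1)) ≠ 0 ∧
        N (e.1 * t.1) (e.2 * t.2 + q * (e.1 * t.1)) ≠ 0 ∧
        M (e.1 * t.1) (e.2 * t.2 + q * (e.1 * t.1)) ≠ N (e.1 * t.1) (e.2 * t.2 + q * (e.1 * t.1))
    · rw [if_pos h, fv_sign, hM, hN, if_pos]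
      refine ⟨?_, ?_⟩
      · have h1 := h.1
        rw [Int.isCoprime_iff_gcd_eq_one] at h1
        have h2 : Int.gcd (e.1 * ((t.1 : ℕ) : ℤ)) (e.2 * ((t.2 : ℕ) : ℤ)) = Nat.gcd t.1 t.2 := by
          rcases he'.1 with h3 | h3 <;> rcases he'.2 with h4 | h4 <;> rw [h3, h4] <;> simp
        rw [h2] at h1
        exact h1
      · apply fv_ne_zero hcls hμ (a := a)
        have b0 := hM (e.1 * t.1) (e.2 * t.2)
        have b1 := hN (e.1 * t.1) (e.2 * t.2)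
        have b2 := hid (e.1 * t.1) (e.2 * t.2)
        intro k
        fin_cases k
        · change FM cls a μ _ 0 ≠ 0
          rw [b0]
          exact neg_ne_zero.2 h.2.1
        · change FM cls a μ _ 1 ≠ 0
          rw [b1]
          exact neg_ne_zero.2 h.2.2.1
        · change FM cls a μ _ 2 ≠ 0
          rw [← b2, b0, b1]
          intro h5
          exact h.2.2.2 (by linarith)
    · rw [if_neg h]
      split_ifs
      · positivity
      · exact le_rfl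
  choose! Ce hCe using hquad
  set D : ℝ := g (0, 1) + g (0, -1) + g (1, 0) + g (-1, 0) with hD
  have hD0 : 0 ≤ D := by
    have h1 := hg0 (0, 1)
    have h2 := hg0 (0, -1)
    have h3 := hg0 (1, 0)
    have h4 := hg0 (-1, 0)
    rw [hD]
    linarith
  have hS0 : 0 ≤ ∑ e ∈ sgs, |Ce e| := sum_nonneg fun _ _ => abs_nonneg _
  refine ⟨(∑ e ∈ sgs, |Ce e| + D) * ((q + 1 : ℕ) : ℝ) ^ 2, by positivity, fun T hT => ?_⟩
  have h1 := box_shift g hg0 q T
  have h2 := box_le g hg0 hgc ((q + 1) * T)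
  have hX1 : 1 ≤ (q + 1) * T := Nat.mul_pos (Nat.succ_pos q) hT
  have h3 : ∑ e ∈ sgs, ∑ t ∈ Icc 1 ((q + 1) * T) ×ˢ Icc 1 ((q + 1) * T),
      g (e.1 * ((t.1 : ℕ) : ℤ), e.2 * ((t.2 : ℕ) : ℤ)) ≤
      (∑ e ∈ sgs, |Ce e|) * (((q + 1) * T : ℕ) : ℝ) ^ 2 := by
    rw [sum_mul]
    apply sum_le_sum
    intro e he
    refine (hCe e he _ hX1).trans ?_
    exact mul_le_mul_of_nonneg_right (le_abs_self _) (by positivity)
  have h4 : D ≤ D * (((q + 1) * T : ℕ) : ℝ) ^ 2 := by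
    apply le_mul_of_one_le_right hD0
    apply one_le_pow₀
    exact_mod_cast hX1
  have h5 : ∑ t ∈ (Box T).filter (fun t : ℤ × ℤ =>
      IsCoprime t.1 t.2 ∧ M t.1 t.2 ≠ 0 ∧ N t.1 t.2 ≠ 0 ∧ M t.1 t.2 ≠ N t.1 t.2),
      (2 : ℝ) ^ Module.finrank ℤ (EAB (-(M t.1 t.2)) (-(N t.1 t.2))).toAffine.Point =
      ∑ t ∈ Box T, g (t.1, t.2 - q * t.1) := by
    rw [sum_filter]
    apply sum_congr rfl
    intro t _
    have h6 : t.2 - q * t.1 + q * t.1 = t.2 := by ring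
    have h7 : IsCoprime t.1 (t.2 - q * t.1) ↔ IsCoprime t.1 t.2 := by
      have : t.2 - q * t.1 = t.2 + (-(q : ℤ)) * t.1 := by ring
      rw [this]
      exact IsCoprime.add_mul_right_right_iff
    rw [hg]
    simp only
    rw [h6]
    simp only [h7]
  rw [h5]
  calc _ ≤ _ := h1
    _ ≤ _ := h2
    _ ≤ (∑ e ∈ sgs, |Ce e|) * (((q + 1) * T : ℕ) : ℝ) ^ 2 +
        D * (((q + 1) * T : ℕ) : ℝ) ^ 2 := add_le_add h3 h4
    _ = _ := by
      push_cast
      ring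

end Pool.Agent.W307.RT
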