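import Mathlib
import Pool.Agent.W307.RT.Fam
import Pool.Agent.W262.RK.MA4
import Pool.Agent.W762.RK2.EXP4b
import Pool.Agent.W125.RK2.COMB4
import Pool.Agent.W340.RT.SVR2
import Pool.Agent.W216.RT.AVH
import Pool.Agent.W29.RT.CNT2
import Pool.Agent.W45.RT.ANT
import Pool.Agent.W571.RT.LocM
import Pool.Agent.W571.RT.Rank2
import Pool.Agent.W230.RT.Avg2
import Pool.Agent.W261.RT.Iso
import Pool.Agent.W135.RT.Par6
import Pool.Agent.W376.RTL.Low6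
import Pool.Agent.W405.RK2.RS
import Pool.Agent.W591.RK2.RVRU
import Pool.Agent.W358.RK2.GR

/-! Project RT: the curves with `Z/2 x Z/6`. -/

namespace Pool.Agent.W307.RT

open Finset Pool.Agent.W262.RK

/-- the average over coprime pairs -/
theorem avg2 : AVG2 :=
  Pool.Agent.W230.RT.avg2_of (Pool.Agent.W571.RT.rank2_of Pool.Agent.W571.RT.locm)
    (Pool.Agent.W29.RT.cnt2_of Pool.Agent.W340.RT.SVR2.svr2 Pool.Agent.W216.RT.AVH.avh)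
    (Pool.Agent.W45.RT.ant_of Pool.Agent.W405.RK2.rs Pool.Agent.W591.RK2.rv
      Pool.Agent.W591.RK2.ru Pool.Agent.W358.RK2.gr)

/-- the classes -/
def c6 : Fin 6 → Fin 4 := ![0, 0, 1, 1, 2, 2]
/-- the multiplicities -/
def m6 : Fin 6 → ℕ := ![3, 1, 3, 1, 1, 3]
/-- the coefficients -/
def α6 : Fin 6 → ℤ := ![1, 7, 3, 5, -2, 4]
/-- the coefficients -/
def β6 : Fin 6 → ℤ := ![0, 2, 1, 1, -1, 1]

lemma fc60 : fc c6 0 = {0, 1} := by decide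
lemma fc61 : fc c6 1 = {2, 3} := by decide
lemma fc62 : fc c6 2 = {4, 5} := by decide

lemma FM60 (u v : ℤ) : FM c6 (fun _ => -1) m6 (fv α6 β6 u v) 0 = -(M6 u (v + 3 * u)) := by
  unfold FM M6
  rw [fc60, prod_pair (by decide)]
  change (-1 : ℤ) * ((1 * u + 0 * v) ^ 3 * (7 * u + 2 * v) ^ 1) = _
  ring

lemma FM61 (u v : ℤ) : FM c6 (fun _ => -1) m6 (fv α6 β6 u v) 1 = -(N6 u (v + 3 * u)) := by
  unfold FM N6
  rw [fc61, prod_pair (by decide)]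
  change (-1 : ℤ) * ((3 * u + 1 * v) ^ 3 * (5 * u + 1 * v) ^ 1) = _
  ring

lemma FM62 (u v : ℤ) : FM c6 (fun _ => -1) m6 (fv α6 β6 u v) 2 =
    -(M6 u (v + 3 * u)) + N6 u (v + 3 * u) := by
  unfold FM M6 N6
  rw [fc62, prod_pair (by decide)]
  change (-1 : ℤ) * ((-2 * u + -1 * v) ^ 1 * (4 * u + 1 * v) ^ 3) = _
  ring

theorem box6 : ∃ C : ℝ, 0 ≤ C ∧ ∀ T : ℕ, 1 ≤ T → ∑ t ∈ (Box T).filter (fun t : ℤ × ℤ =>
      IsCoprime t.1 t.2 ∧ M6 t.1 t.2 ≠ 0 ∧ N6 t.1 t.2 ≠ 0 ∧ M6 t.1 t.2 ≠ N6 t.1 t.2),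
      (2 : ℝ) ^ Module.finrank ℤ (EAB (-(M6 t.1 t.2)) (-(N6 t.1 t.2))).toAffine.Point ≤
        C * (T : ℝ) ^ 2 := by
  refine fam avg2 c6 (fun _ => -1) m6 α6 β6 (by decide) (by decide) (by decide) (by decide)
    (by decide) (by decide) (fun j => Or.inl (by revert j; decide)) (fun u v => ?_) ?_ 3 M6 N6
    (fun u v => by rw [FM60]; norm_num) (fun u v => by rw [FM61]; norm_num)
  · rw [FM60, FM61, FM62]
    ring
  · exact ma4 Pool.Agent.W762.RK2.exp4 Pool.Agent.W125.RK2.comb4 c6 _ 2 _ (by decide)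
      (fun j _ => by revert j; decide)

/-- **Main theorem for Z/2 x Z/6** -/
theorem main6 : ∃ C : ℝ, ∀ H : ℕ, ∑ c ∈ Cv 6 H,
    (2 : ℝ) ^ Module.finrank ℤ (Sh c.1 c.2).toAffine.Point ≤ C * (Cv 6 H).card :=
  final_of (by norm_num) (Pool.Agent.W135.RT.par6_of Pool.Agent.W261.RT.iso)
    Pool.Agent.W376.RTL.low6 box6

end Pool.Agent.W307.RT
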