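import Mathlib
import Pool.Agent.W262.RK.AT4
import Pool.Agent.W307.RT.Stm

/-! Project RT: the refined abstract bound, the sum over the unlinked variables. -/

namespace Pool.Agent.W307.RT

open Finset Pool.Agent.W262.RK Pool.Agent.W262.RK.AT

variable {ι : Type} [Fintype ι] [DecidableEq ι]

/-- the values outside `W` -/
def tE (W : Finset ι) (t : ι → Finset ℕ) (b : ι) : Finset ℕ := if b ∈ W then {1} else t b

/-- the values in `W` -/
def tF (W : Finset ι) (t : ι → Finset ℕ) (b : ι) : Finset ℕ := if b ∈ W then t b else {1}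

lemma mem_tE {W : Finset ι} {t : ι → Finset ℕ} {e : ι → ℕ} :
    e ∈ Fintype.piFinset (tE W t) ↔ (∀ b ∈ W, e b = 1) ∧ ∀ b, b ∉ W → e b ∈ t b := by
  rw [Fintype.mem_piFinset]
  constructor
  · intro h
    refine ⟨fun b hb => ?_, fun b hb => ?_⟩
    · have := h b
      unfold tE at this
      rwa [if_pos hb, mem_singleton] at this
    · have := h b
      unfold tE at this
      rwa [if_neg hb] at this
  · rintro ⟨h1, h2⟩ b
    unfold tE
    split_ifs with h
    · rw [mem_singleton]; exact h1 b h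
    · exact h2 b h

lemma mem_tF {W : Finset ι} {t : ι → Finset ℕ} {f : ι → ℕ} :
    f ∈ Fintype.piFinset (tF W t) ↔ (∀ b ∈ W, f b ∈ t b) ∧ ∀ b, b ∉ W → f b = 1 := by
  rw [Fintype.mem_piFinset]
  constructor
  · intro h
    refine ⟨fun b hb => ?_, fun b hb => ?_⟩
    · have := h b
      unfold tF at this
      rwa [if_pos hb] at this
    · have := h b
      unfold tF at this
      rwa [if_neg hb, mem_singleton] at this
  · rintro ⟨h1, h2⟩ b
    unfold tF
    split_ifs with h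
    · exact h1 b h
    · rw [mem_singleton]; exact h2 b h

/-- splitting the variables -/
lemma sum_split (W : Finset ι) (t : ι → Finset ℕ) (G : (ι → ℕ) → ℝ) :
    ∑ d ∈ Fintype.piFinset t, G d =
      ∑ e ∈ Fintype.piFinset (tE W t), ∑ f ∈ Fintype.piFinset (tF W t), G (fun b => e b * f b) := by
  rw [← sum_product']
  symm
  refine sum_bij' (fun x _ => fun b => x.1 b * x.2 b)
    (fun d _ => (fun b => if b ∈ W then 1 else d b, fun b => if b ∈ W then d b else 1)) ?_ ?_ ?_ ?_ ?_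
  · intro x hx
    rw [mem_product, mem_tE, mem_tF] at hx
    rw [Fintype.mem_piFinset]
    intro b
    by_cases hb : b ∈ W
    · rw [hx.1.1 b hb, one_mul]; exact hx.2.1 b hb
    · rw [hx.2.2 b hb, mul_one]; exact hx.1.2 b hb
  · intro d hd
    rw [Fintype.mem_piFinset] at hd
    rw [mem_product, mem_tE, mem_tF]
    refine ⟨⟨fun b hb => by simp [hb], fun b hb => by simp only [hb, if_false]; exact hd b⟩,
      fun b hb => by simp only [hb, if_true]; exact hd b, fun b hb => by simp [hb]⟩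
  · intro x hx
    rw [mem_product, mem_tE, mem_tF] at hx
    refine Prod.ext ?_ ?_
    · funext b
      by_cases hb : b ∈ W
      · simp [hb, hx.1.1 b hb]
      · simp [hb, hx.2.2 b hb]
    · funext b
      by_cases hb : b ∈ W
      · simp [hb, hx.1.1 b hb]
      · simp [hb, hx.2.2 b hb]
  · intro d hd
    funext b
    by_cases hb : b ∈ W
    · simp [hb]
    · simp [hb]
  · intro x hx
    rfl

/-- the sum over the variables outside `W` -/
lemma sum_off (W : Finset ι) (t : ι → Finset ℕ) (g : ι → ℕ → ℝ) :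
    ∑ e ∈ Fintype.piFinset (tE W t), ∏ b ∈ univ \ W, g b (e b) =
      ∏ b ∈ univ \ W, ∑ m ∈ t b, g b m := by
  have h1 : ∀ e : ι → ℕ, ∏ b ∈ univ \ W, g b (e b) = ∏ b, (if b ∈ W then 1 else g b (e b)) := by
    intro e
    rw [← prod_subset (subset_univ (univ \ W))]
    · apply prod_congr rfl
      intro b hb
      rw [if_neg (mem_sdiff.1 hb).2]
    · intro b _ hb
      rw [mem_sdiff, not_and, not_not] at hb
      rw [if_pos (hb (mem_univ b))]
  simp_rw [h1]
  rw [← prod_univ_sum (tE W t) (fun b m => if b ∈ W then 1 else g b m),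
    ← prod_subset (subset_univ (univ \ W))]
  · apply prod_congr rfl
    intro b hb
    have hb' := (mem_sdiff.1 hb).2
    unfold tE
    rw [if_neg hb']
    apply sum_congr rfl
    intro m _
    rw [if_neg hb']
  · intro b _ hb
    rw [mem_sdiff, not_and, not_not] at hb
    have hb' := hb (mem_univ b)
    unfold tE
    rw [if_pos hb', sum_singleton, if_pos hb']

/-- `∏_{p ∣ d} (1 + A / p)` -/
noncomputable def hA (A : ℕ) (d : ℕ) : ℝ := ∏ p ∈ d.primeFactors, (1 + (A : ℝ) / (p : ℝ))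

lemma one_le_fac (A p : ℕ) : (1 : ℝ) ≤ 1 + (A : ℝ) / (p : ℝ) := by
  have : (0 : ℝ) ≤ (A : ℝ) / (p : ℝ) := by positivity
  linarith

lemma one_le_hA (A d : ℕ) : 1 ≤ hA A d := by
  unfold hA
  calc (1 : ℝ) = ∏ p ∈ d.primeFactors, (1 : ℝ) := by simp
    _ ≤ _ := prod_le_prod (fun _ _ => zero_le_one) fun p _ => one_le_fac A p

lemma hA_nonneg (A d : ℕ) : 0 ≤ hA A d := zero_le_one.trans (one_le_hA A d)

lemma hA_one (A : ℕ) : hA A 1 = 1 := by simp [hA]

lemma hA_mul_le (A : ℕ) {a b : ℕ} (ha : a ≠ 0) (hb : b ≠ 0) : hA A (a * b) ≤ hA A a * hA A b := by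
  unfold hA
  rw [Nat.primeFactors_mul ha hb]
  have h2 : (1 : ℝ) ≤ ∏ p ∈ a.primeFactors ∩ b.primeFactors, (1 + (A : ℝ) / (p : ℝ)) := by
    calc (1 : ℝ) = ∏ p ∈ a.primeFactors ∩ b.primeFactors, (1 : ℝ) := by simp
      _ ≤ _ := prod_le_prod (fun _ _ => zero_le_one) fun p _ => one_le_fac A p
  have h3 : 0 ≤ ∏ p ∈ a.primeFactors ∪ b.primeFactors, (1 + (A : ℝ) / (p : ℝ)) :=
    prod_nonneg fun p _ => zero_le_one.trans (one_le_fac A p)
  rw [← prod_union_inter]
  exact le_mul_of_one_le_right h3 h2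

lemma hA_prod_le (A : ℕ) {α : Type*} (s : Finset α) (f : α → ℕ) (hf : ∀ a ∈ s, f a ≠ 0) :
    hA A (∏ a ∈ s, f a) ≤ ∏ a ∈ s, hA A (f a) := by
  classical
  induction s using Finset.induction_on with
  | empty => simp [hA_one]
  | insert a s ha ih =>
    rw [prod_insert ha, prod_insert ha]
    have h1 : ∀ b ∈ s, f b ≠ 0 := fun b hb => hf b (mem_insert_of_mem hb)
    refine (hA_mul_le A (hf a (mem_insert_self a s)) (prod_ne_zero_iff.2 h1)).trans ?_
    exact mul_le_mul_of_nonneg_left (ih h1) (hA_nonneg _ _)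

lemma gw_hA {w : ℝ} (hw : 0 ≤ w) {c A z y m : ℕ} (hz : c + A ≤ z) (hm : m ∈ (PP z y).divisors) :
    gw w c m * hA A m ≤ gw w (c + A) m := by
  unfold gw hA
  rw [← prod_mul_distrib]
  apply prod_le_prod
  · intro p hp
    have h1 := (dv_prime hm (Nat.prime_of_mem_primeFactors hp) (Nat.dvd_of_mem_primeFactors hp)).1
    have h2 : (c : ℝ) < p := by exact_mod_cast (by omega : c < p)
    have h3 : 0 ≤ w / ((p : ℝ) - c) := div_nonneg hw (by linarith)
    exact mul_nonneg h3 (zero_le_one.trans (one_le_fac A p))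
  · intro p hp
    have h1 := (dv_prime hm (Nat.prime_of_mem_primeFactors hp) (Nat.dvd_of_mem_primeFactors hp)).1
    have h2 : (c : ℝ) + A < p := by exact_mod_cast (by omega : c + A < p)
    have hA0 : (0 : ℝ) ≤ A := Nat.cast_nonneg A
    have hc0 : (0 : ℝ) ≤ c := Nat.cast_nonneg c
    have h3 : (0 : ℝ) < (p : ℝ) - c := by linarith
    have h4 : (0 : ℝ) < (p : ℝ) - ((c + A : ℕ) : ℝ) := by push_cast; linarith
    have h5 : (0 : ℝ) < p := by linarith
    have h6 : w / ((p : ℝ) - c) * (1 + (A : ℝ) / (p : ℝ)) =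
        w * ((p + A) / (((p : ℝ) - c) * p)) := by
      field_simp
    rw [h6, div_eq_mul_one_div w ((p : ℝ) - ((c + A : ℕ) : ℝ))]
    apply mul_le_mul_of_nonneg_left _ hw
    rw [div_le_div_iff₀ (by positivity) h4]
    push_cast
    nlinarith [mul_nonneg hA0 hA0, mul_nonneg hA0 hc0]

/-- the character of the variable `i` for given values `e` of the others -/
noncomputable def Ps (L : ι → ι → Bool) (κ : ι → ℤ) (e : ι → ℕ) (i : ι) (m : ℕ) : ℝ :=
  XX L i e m * Jr (κ i) m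

lemma Ps_one (L : ι → ι → Bool) (κ : ι → ℤ) (e : ι → ℕ) (i : ι) : Ps L κ e i 1 = 1 := by
  unfold Ps XX
  rw [Jr_one_right, mul_one]
  apply prod_eq_one
  intro b _
  have h1 : Jr ((1 : ℕ) : ℤ) (e b) = 1 := by simp [Jr, jacobiSym.one_left]
  rw [h1, Jr_one_right]
  simp

lemma Jr_mul_left (a b : ℤ) (n : ℕ) : Jr (a * b) n = Jr a n * Jr b n := by
  unfold Jr
  rw [jacobiSym.mul_left]
  push_cast
  rfl

lemma Ps_mul (L : ι → ι → Bool) (κ : ι → ℤ) (e : ι → ℕ) (i : ι) {m n : ℕ} (hm : m ≠ 0)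
    (hn : n ≠ 0) : Ps L κ e i (m * n) = Ps L κ e i m * Ps L κ e i n := by
  unfold Ps XX
  rw [Jr_mul_right _ hm hn]
  have h : ∏ b ∈ univ.erase i, ((if L i b then Jr ((m * n : ℕ) : ℤ) (e b) else 1) *
      (if L b i then Jr (e b) (m * n) else 1)) =
      (∏ b ∈ univ.erase i, ((if L i b then Jr (m : ℤ) (e b) else 1) *
        (if L b i then Jr (e b) m else 1))) *
      ∏ b ∈ univ.erase i, ((if L i b then Jr (n : ℤ) (e b) else 1) *
        (if L b i then Jr (e b) n else 1)) := by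
    rw [← prod_mul_distrib]
    apply prod_congr rfl
    intro b _
    have h1 : Jr ((m * n : ℕ) : ℤ) (e b) = Jr (m : ℤ) (e b) * Jr (n : ℤ) (e b) := by
      push_cast
      exact Jr_mul_left _ _ _
    rw [h1, Jr_mul_right _ hm hn]
    split_ifs <;> ring
  rw [h]
  ring

/-- the symbols of the variables outside `W` -/
noncomputable def RW (L : ι → ι → Bool) (κ : ι → ℤ) (W : Finset ι) (e : ι → ℕ) : ℝ :=
  (∏ a ∈ univ \ W, ∏ b ∈ univ \ W, if L a b then Jr (e a) (e b) else 1) *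
    ∏ a ∈ univ \ W, Jr (κ a) (e a)

lemma abs_RW_le (L : ι → ι → Bool) (κ : ι → ℤ) (W : Finset ι) (e : ι → ℕ) : |RW L κ W e| ≤ 1 := by
  unfold RW
  rw [abs_mul]
  apply mul_le_one₀ _ (abs_nonneg _) _
  · apply abs_prod_le_one
    intro a _
    apply abs_prod_le_one
    intro b _
    exact abs_ite_Jr _ _ _
  · apply abs_prod_le_one
    intro a _
    exact abs_Jr_le _ _

/-- the symbols, when there are none inside `W` -/
lemma Sym_split {L : ι → ι → Bool} (κ : ι → ℤ) {W : Finset ι}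
    (hW : ∀ i ∈ W, ∀ j ∈ W, L i j = false) {e f : ι → ℕ} (he : ∀ b ∈ W, e b = 1)
    (hf : ∀ b, b ∉ W → f b = 1) :
    Sym L κ (fun b => e b * f b) = RW L κ W e * ∏ i ∈ W, Ps L κ e i (f i) := by
  have hdW : ∀ b ∈ W, e b * f b = f b := fun b hb => by rw [he b hb, one_mul]
  have hdE : ∀ b ∈ univ \ W, e b * f b = e b := fun b hb => by
    rw [hf b (mem_sdiff.1 hb).2, mul_one]
  have hsp : ∀ F : ι → ℝ, ∏ a, F a = (∏ a ∈ W, F a) * ∏ a ∈ univ \ W, F a := by
    intro F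
    rw [mul_comm]
    exact (prod_sdiff (subset_univ W)).symm
  have h1 : ∀ F : ι → ι → ℝ, (∀ a ∈ W, ∀ b ∈ W, F a b = 1) → ∏ a, ∏ b, F a b =
      (∏ a ∈ univ \ W, ∏ b ∈ univ \ W, F a b) *
        ∏ i ∈ W, ∏ b ∈ univ \ W, (F i b * F b i) := by
    intro F hF
    have e1 : ∏ a, ∏ b, F a b = ∏ a, ((∏ b ∈ W, F a b) * ∏ b ∈ univ \ W, F a b) :=
      prod_congr rfl fun a _ => hsp _
    rw [e1, hsp]
    have e2 : ∏ a ∈ W, ((∏ b ∈ W, F a b) * ∏ b ∈ univ \ W, F a b) =
        ∏ a ∈ W, ∏ b ∈ univ \ W, F a b := by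
      apply prod_congr rfl
      intro a ha
      rw [prod_eq_one (fun b hb => hF a ha b hb), one_mul]
    have e3 : ∏ a ∈ univ \ W, ((∏ b ∈ W, F a b) * ∏ b ∈ univ \ W, F a b) =
        (∏ i ∈ W, ∏ b ∈ univ \ W, F b i) * ∏ a ∈ univ \ W, ∏ b ∈ univ \ W, F a b := by
      rw [prod_mul_distrib, prod_comm]
    rw [e2, e3]
    have e4 : ∏ i ∈ W, ∏ b ∈ univ \ W, (F i b * F b i) =
        (∏ a ∈ W, ∏ b ∈ univ \ W, F a b) * ∏ i ∈ W, ∏ b ∈ univ \ W, F b i := by
      rw [← prod_mul_distrib]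
      apply prod_congr rfl
      intro i _
      rw [prod_mul_distrib]
    rw [e4]
    ring
  unfold Pool.Agent.W262.RK.Sym RW
  rw [h1 _ (fun a ha b hb => by rw [hW a ha b hb]; simp), hsp (fun i => Jr (κ i) (e i * f i))]
  have h2 : ∏ a ∈ univ \ W, ∏ b ∈ univ \ W,
      (if L a b then Jr ((e a * f a : ℕ) : ℤ) (e b * f b) else 1) =
      ∏ a ∈ univ \ W, ∏ b ∈ univ \ W, if L a b then Jr (e a) (e b) else 1 := by
    apply prod_congr rfl
    intro a ha
    apply prod_congr rfl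
    intro b hb
    rw [hdE a ha, hdE b hb]
  have h3 : ∏ i ∈ univ \ W, Jr (κ i) (e i * f i) = ∏ i ∈ univ \ W, Jr (κ i) (e i) := by
    apply prod_congr rfl
    intro a ha
    rw [hdE a ha]
  have h4 : ∏ i ∈ W, Jr (κ i) (e i * f i) = ∏ i ∈ W, Jr (κ i) (f i) := by
    apply prod_congr rfl
    intro a ha
    rw [hdW a ha]
  have h5 : ∏ i ∈ W, ∏ b ∈ univ \ W, ((if L i b then Jr ((e i * f i : ℕ) : ℤ) (e b * f b) else 1) *
      (if L b i then Jr ((e b * f b : ℕ) : ℤ) (e i * f i) else 1)) =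
      ∏ i ∈ W, XX L i e (f i) := by
    apply prod_congr rfl
    intro i hi
    unfold XX
    have h6 : (univ \ W) ⊆ univ.erase i := by
      intro b hb
      rw [mem_erase]
      refine ⟨?_, mem_univ b⟩
      rintro rfl
      exact (mem_sdiff.1 hb).2 hi
    rw [← prod_subset h6]
    · apply prod_congr rfl
      intro b hb
      rw [hdW i hi, hdE b hb]
    · intro b hb hb2
      have hbW : b ∈ W := by
        rw [mem_sdiff, not_and, not_not] at hb2
        exact hb2 (mem_univ b)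
      rw [hW i hi b hbW, hW b hbW i hi]
      simp
  have h7 : ∏ i ∈ W, Ps L κ e i (f i) = (∏ i ∈ W, XX L i e (f i)) * ∏ i ∈ W, Jr (κ i) (f i) := by
    rw [← prod_mul_distrib]
    rfl
  rw [h2, h3, h4, h5, h7]
  ring

/-- the property of `FSB` for fixed `z`, `C`, `A` -/
def FS (w : ι → ℝ) (c z A : ℕ) (C : ℝ) : Prop :=
  ∀ (y R : ℕ) (W : Finset ι) (ψ φ : ι → ℕ → ℝ) (B : ι → ℝ), z < y → R ≠ 0 →
  (∀ i ∈ W, ψ i 1 = 1) → (∀ i ∈ W, ∀ m n, m * n ∣ PP z y → ψ i (m * n) = ψ i m * ψ i n) →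
  (∀ i ∈ W, ∀ p, |φ i p| ≤ 1) → (∀ i ∈ W, ∀ p ∈ PS z y, ¬ p ∣ R → ψ i p = φ i p) →
  (∀ i ∈ W, ∑ p ∈ PS z y, φ i p / (p : ℝ) ≤ B i) →
    |∑ d ∈ (Tup ι z y).filter (fun d => (∀ i, (d i).Coprime R) ∧ ∀ i, i ∉ W → d i = 1),
      ∏ i ∈ W, (gw (w i) c (d i) * ψ i (d i))| ≤
      C * Real.exp (∑ i ∈ W, w i * B i) * ∏ p ∈ R.primeFactors, (1 + (A : ℝ) / (p : ℝ))

/-- the hypothesis about the characters of the variables in `W` -/
def CH (L : ι → ι → Bool) (κ : ι → ℤ) (z y : ℕ) (W : Finset ι) (t : ι → Finset ℕ)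
    (B : ι → ℝ) : Prop :=
  ∀ e : ι → ℕ, (∀ b ∈ W, e b = 1) → (∀ b, b ∉ W → e b ∈ t b) →
    (∀ a b, a ≠ b → (e a).Coprime (e b)) → ∀ i ∈ W, ∃ φ : ℕ → ℝ, (∀ p, |φ p| ≤ 1) ∧
      (∀ p ∈ PS z y, (∀ b, ¬ p ∣ e b) → Ps L κ e i p = φ p) ∧
      ∑ p ∈ PS z y, φ p / (p : ℝ) ≤ B i

/-- the inner sum -/
lemma inner_full {w : ι → ℝ} {L : ι → ι → Bool} {κ : ι → ℤ} {c z A y : ℕ} {C : ℝ}
    (hw : ∀ i, 0 ≤ w i) (hcz : c ≤ z) (hC : 0 ≤ C) (hF : FS w c z A C) (hy : z < y)
    {W : Finset ι} (hW : ∀ i ∈ W, ∀ j ∈ W, L i j = false) {t : ι → Finset ℕ}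
    (ht : ∀ b, t b ⊆ (PP z y).divisors) (htW : ∀ b ∈ W, t b = (PP z y).divisors)
    {B : ι → ℝ} (hB : CH L κ z y W t B) {e : ι → ℕ} (he : e ∈ Fintype.piFinset (tE W t)) :
    |∑ f ∈ Fintype.piFinset (tF W t), HH w L κ c (fun b => e b * f b)| ≤
      (C * Real.exp (∑ i ∈ W, w i * B i)) * ∏ b ∈ univ \ W, (gw (w b) c (e b) * hA A (e b)) := by
  classical
  obtain ⟨he1, he2⟩ := mem_tE.1 he
  have heD : ∀ b, e b ∈ (PP z y).divisors := by
    intro b
    by_cases hb : b ∈ W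
    · rw [he1 b hb]; exact one_mem_dv z y
    · exact ht b (he2 b hb)
  have hg0 : ∀ b, 0 ≤ gw (w b) c (e b) := fun b => gw_nonneg (hw b) hcz (heD b)
  have hRHS : 0 ≤ (C * Real.exp (∑ i ∈ W, w i * B i)) *
      ∏ b ∈ univ \ W, (gw (w b) c (e b) * hA A (e b)) :=
    mul_nonneg (mul_nonneg hC (Real.exp_pos _).le)
      (prod_nonneg fun b _ => mul_nonneg (hg0 b) (hA_nonneg _ _))
  by_cases hcop : ∀ a b, a ≠ b → (e a).Coprime (e b)
  swap
  · have h0 : ∀ f ∈ Fintype.piFinset (tF W t), HH w L κ c (fun b => e b * f b) = 0 := by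
      intro f _
      unfold HH
      rw [if_neg]
      intro h
      apply hcop
      intro a b hab
      exact Nat.Coprime.coprime_mul_right (Nat.Coprime.coprime_mul_right_right (h a b hab))
    rw [sum_eq_zero h0, abs_zero]
    exact hRHS
  set R := ∏ b, e b with hR
  have hR0 : R ≠ 0 := prod_ne_zero_iff.2 fun b _ => dv_ne_zero (heD b)
  have hcR : ∀ m : ℕ, m.Coprime R ↔ ∀ b, m.Coprime (e b) := by
    intro m
    rw [hR, Nat.coprime_prod_right_iff]
    simp
  choose! φ hφ1 hφ2 hφ3 using hB e he1 he2 hcop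
  have hmain := hF y R W (fun i => Ps L κ e i) φ B hy hR0 (fun i _ => Ps_one L κ e i)
    (fun i _ m n hmn => by
      have h0 : m * n ≠ 0 := fun h => PP_ne_zero z y (by rw [h] at hmn; exact zero_dvd_iff.1 hmn)
      exact Ps_mul L κ e i (left_ne_zero_of_mul h0) (right_ne_zero_of_mul h0))
    hφ1 (fun i hi p hp hpR => hφ2 i hi p hp fun b hb =>
      hpR (hb.trans (dvd_prod_of_mem e (mem_univ b)))) hφ3
  have hkey : ∑ f ∈ Fintype.piFinset (tF W t), HH w L κ c (fun b => e b * f b) =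
      ((∏ b ∈ univ \ W, gw (w b) c (e b)) * RW L κ W e) *
        ∑ d ∈ (Tup ι z y).filter (fun d => (∀ i, (d i).Coprime R) ∧ ∀ i, i ∉ W → d i = 1),
          ∏ i ∈ W, (gw (w i) c (d i) * Ps L κ e i (d i)) := by
    have h1 : (Tup ι z y).filter (fun d => (∀ i, (d i).Coprime R) ∧ ∀ i, i ∉ W → d i = 1) =
        (Fintype.piFinset (tF W t)).filter (fun d => (∀ i j, i ≠ j → (d i).Coprime (d j)) ∧
          ∀ i, (d i).Coprime R) := by
      ext d
      unfold Tup
      rw [mem_filter, mem_filter, mem_filter, Fintype.mem_piFinset, mem_tF]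
      constructor
      · rintro ⟨⟨h1, h2⟩, h3, h4⟩
        exact ⟨⟨fun b hb => by rw [htW b hb]; exact h1 b, h4⟩, h2, h3⟩
      · rintro ⟨⟨h1, h4⟩, h2, h3⟩
        refine ⟨⟨fun b => ?_, h2⟩, h3, h4⟩
        by_cases hb : b ∈ W
        · rw [← htW b hb]; exact h1 b hb
        · rw [h4 b hb]; exact one_mem_dv z y
    rw [h1, mul_sum, sum_filter]
    apply sum_congr rfl
    intro f hf
    obtain ⟨hf1, hf2⟩ := mem_tF.1 hf
    have hiff : (∀ a b, a ≠ b → (e a * f a).Coprime (e b * f b)) ↔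
        (∀ i j, i ≠ j → (f i).Coprime (f j)) ∧ ∀ i, (f i).Coprime R := by
      constructor
      · intro h
        refine ⟨fun i j hij => Nat.Coprime.coprime_mul_left
          (Nat.Coprime.coprime_mul_left_right (h i j hij)), fun i => ?_⟩
        rw [hcR]
        intro b
        by_cases hib : i = b
        · subst hib
          by_cases hi : i ∈ W
          · rw [he1 i hi]; exact Nat.coprime_one_right _
          · rw [hf2 i hi]; exact Nat.coprime_one_left _
        · exact Nat.Coprime.coprime_mul_left (Nat.Coprime.coprime_mul_right_right (h i b hib))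
      · rintro ⟨h1, h2⟩ a b hab
        have h2a := (hcR _).1 (h2 a)
        have h2b := (hcR _).1 (h2 b)
        exact Nat.Coprime.mul_left (Nat.Coprime.mul_right (hcop a b hab) (h2b a).symm)
          (Nat.Coprime.mul_right (h2a b) (h1 a b hab))
    unfold HH
    by_cases hc : (∀ i j, i ≠ j → (f i).Coprime (f j)) ∧ ∀ i, (f i).Coprime R
    · rw [if_pos (hiff.2 hc), if_pos hc, Sym_split κ hW he1 hf2]
      have h3 : ∏ i, gw (w i) c (e i * f i) = (∏ b ∈ univ \ W, gw (w b) c (e b)) *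
          ∏ i ∈ W, gw (w i) c (f i) := by
        rw [← prod_sdiff (subset_univ W)]
        congr 1
        · apply prod_congr rfl
          intro b hb
          rw [hf2 b (mem_sdiff.1 hb).2, mul_one]
        · apply prod_congr rfl
          intro b hb
          rw [he1 b hb, one_mul]
      rw [h3, prod_mul_distrib]
      ring
    · rw [if_neg (fun h => hc (hiff.1 h)), if_neg hc]
  rw [hkey, abs_mul, abs_mul, abs_of_nonneg (prod_nonneg fun b _ => hg0 b), prod_mul_distrib]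
  have hRA : ∏ p ∈ R.primeFactors, (1 + (A : ℝ) / (p : ℝ)) ≤ ∏ b ∈ univ \ W, hA A (e b) := by
    have h1 : hA A R ≤ ∏ b, hA A (e b) := hA_prod_le A univ e fun b _ => dv_ne_zero (heD b)
    have h2 : ∏ b, hA A (e b) = ∏ b ∈ univ \ W, hA A (e b) := by
      rw [← prod_sdiff (subset_univ W)]
      rw [prod_eq_one (s := W) (fun b hb => by rw [he1 b hb, hA_one]), mul_one]
    rw [← h2]
    exact h1
  have hP0 : 0 ≤ ∏ b ∈ univ \ W, gw (w b) c (e b) := prod_nonneg fun b _ => hg0 b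
  have hCe : 0 ≤ C * Real.exp (∑ i ∈ W, w i * B i) := mul_nonneg hC (Real.exp_pos _).le
  calc (∏ b ∈ univ \ W, gw (w b) c (e b)) * |RW L κ W e| *
        |∑ d ∈ (Tup ι z y).filter (fun d => (∀ i, (d i).Coprime R) ∧ ∀ i, i ∉ W → d i = 1),
          ∏ i ∈ W, (gw (w i) c (d i) * Ps L κ e i (d i))|
      ≤ (∏ b ∈ univ \ W, gw (w b) c (e b)) * 1 *
        (C * Real.exp (∑ i ∈ W, w i * B i) * ∏ b ∈ univ \ W, hA A (e b)) := by
        apply mul_le_mul (mul_le_mul_of_nonneg_left (abs_RW_le L κ W e) hP0) _ (abs_nonneg _)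
          (by positivity)
        exact hmain.trans (mul_le_mul_of_nonneg_left hRA hCe)
    _ = _ := by ring

/-- the sum when all the variables of `W` are unrestricted -/
lemma full_case {w : ι → ℝ} {L : ι → ι → Bool} {κ : ι → ℤ} {c z A y : ℕ} {C : ℝ}
    (hw : ∀ i, 0 ≤ w i) (hcz : c + A ≤ z) (hC : 0 ≤ C) (hF : FS w c z A C) (hy : z < y)
    {W : Finset ι} (hW : ∀ i ∈ W, ∀ j ∈ W, L i j = false) {t : ι → Finset ℕ}
    (ht : ∀ b, t b ⊆ (PP z y).divisors) (htW : ∀ b ∈ W, t b = (PP z y).divisors)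
    {B : ι → ℝ} (hB : CH L κ z y W t B) :
    |∑ d ∈ Fintype.piFinset t, HH w L κ c d| ≤
      (C * Real.exp (∑ i ∈ W, w i * B i)) *
        ∏ b ∈ univ \ W, ∑ m ∈ t b, gw (w b) (c + A) m * hh m := by
  rw [sum_split W t]
  refine (abs_sum_le_sum_abs _ _).trans ?_
  rw [← sum_off W t (fun b m => gw (w b) (c + A) m * hh m), mul_sum]
  apply sum_le_sum
  intro e he
  refine (inner_full hw (by omega) hC hF hy hW ht htW hB he).trans ?_
  apply mul_le_mul_of_nonneg_left _ (mul_nonneg hC (Real.exp_pos _).le)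
  obtain ⟨he1, he2⟩ := mem_tE.1 he
  apply prod_le_prod
  · intro b hb
    have hm := ht b (he2 b (mem_sdiff.1 hb).2)
    exact mul_nonneg (gw_nonneg (hw b) (by omega) hm) (hA_nonneg _ _)
  · intro b hb
    have hm := ht b (he2 b (mem_sdiff.1 hb).2)
    refine (gw_hA (hw b) hcz hm).trans ?_
    exact le_mul_of_one_le_right (gw_nonneg (hw b) hcz hm) (one_le_hh _)

end Pool.Agent.W307.RT
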