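import Mathlib
import Pool.Agent.W307.RT.RAT1

/-! Project RT: the refined abstract bound, large ranges. -/

namespace Pool.Agent.W307.RT

open Finset Pool.Agent.W262.RK Pool.Agent.W262.RK.AT

variable {ι : Type} [Fintype ι] [DecidableEq ι]

/-- the character does not depend on unlinked variables -/
lemma Ps_update {L : ι → ι → Bool} {κ : ι → ℤ} (e : ι → ℕ) {i b : ι} (v : ℕ)
    (h1 : L i b = false) (h2 : L b i = false) (m : ℕ) :
    Ps L κ (Function.update e b v) i m = Ps L κ e i m := by
  unfold Ps XX
  congr 1
  apply prod_congr rfl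
  intro a _
  by_cases hab : a = b
  · subst hab
    simp [h1, h2]
  · rw [Function.update_of_ne hab]

/-- the sum over a large range -/
lemma lg_sum {z y V Y : ℕ} (hVY : V ≤ Y) (f : ℕ → ℝ) :
    ∑ m ∈ lg z y V Y, f m = ∑ m ∈ (PP z y).divisors, f m -
      ∑ m ∈ (PP z y).divisors.filter (fun m => m ≤ V), f m -
      ∑ m ∈ (PP z y).divisors.filter (fun m => Y < m), f m := by
  unfold lg
  set D := (PP z y).divisors
  have e1 : ∑ m ∈ D.filter (fun m => V < m ∧ m ≤ Y), f m + ∑ m ∈ D.filter (fun m => Y < m), f m =
      ∑ m ∈ D.filter (fun m => ¬ m ≤ V), f m := by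
    rw [← sum_union]
    · apply sum_congr _ (fun _ _ => rfl)
      ext m
      simp only [mem_union, mem_filter]
      constructor
      · rintro (⟨h1, h2, h3⟩ | ⟨h1, h2⟩)
        · exact ⟨h1, by omega⟩
        · exact ⟨h1, by omega⟩
      · rintro ⟨h1, h2⟩
        by_cases h3 : m ≤ Y
        · exact Or.inl ⟨h1, by omega, h3⟩
        · exact Or.inr ⟨h1, by omega⟩
    · rw [disjoint_filter]
      intro m _ h1 h2
      omega
  have e2 := sum_filter_add_sum_filter_not D (fun m => m ≤ V) f
  linarith

/-- splitting a large range -/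
lemma split_lg {z y V Y : ℕ} (hVY : V ≤ Y) (t : ι → Finset ℕ) (i : ι) (hi : t i = lg z y V Y)
    (G : (ι → ℕ) → ℝ) :
    ∑ d ∈ Fintype.piFinset t, G d =
      ∑ d ∈ Fintype.piFinset (Function.update t i (PP z y).divisors), G d -
      ∑ d ∈ Fintype.piFinset (Function.update t i
        ((PP z y).divisors.filter (fun m => m ≤ V))), G d -
      ∑ d ∈ Fintype.piFinset (Function.update t i
        ((PP z y).divisors.filter (fun m => Y < m))), G d := by
  rw [sum_update t i, sum_update (Function.update t i (PP z y).divisors) i,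
    sum_update (Function.update t i ((PP z y).divisors.filter (fun m => m ≤ V))) i,
    sum_update (Function.update t i ((PP z y).divisors.filter (fun m => Y < m))) i]
  simp only [Function.update_idem, Function.update_self]
  rw [← sum_sub_distrib, ← sum_sub_distrib]
  apply sum_congr rfl
  intro e _
  rw [hi, lg_sum hVY]

lemma CH_full {L : ι → ι → Bool} {κ : ι → ℤ} {z y : ℕ} {W : Finset ι} {t : ι → Finset ℕ}
    {B : ι → ℝ} (h : CH L κ z y W t B) {i : ι} (hi : i ∈ W) (X : Finset ℕ) :
    CH L κ z y W (Function.update t i X) B := by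
  intro e h1 h2 h3
  apply h e h1 _ h3
  intro b hb
  have := h2 b hb
  rwa [Function.update_of_ne (by rintro rfl; exact hb hi)] at this

lemma CH_erase {L : ι → ι → Bool} {κ : ι → ℤ} {z y : ℕ} {W : Finset ι} {t : ι → Finset ℕ}
    {B : ι → ℝ} (h : CH L κ z y W t B) (hW : ∀ i ∈ W, ∀ j ∈ W, L i j = false) {i : ι}
    (hi : i ∈ W) (X : Finset ℕ) : CH L κ z y (W.erase i) (Function.update t i X) B := by
  intro e h1 h2 h3 j hj
  have hjW := (mem_erase.1 hj).2
  have hji := (mem_erase.1 hj).1
  obtain ⟨φ, a1, a2, a3⟩ := h (Function.update e i 1) (by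
    intro b hb
    by_cases hbi : b = i
    · subst hbi; rw [Function.update_self]
    · rw [Function.update_of_ne hbi]
      exact h1 b (mem_erase.2 ⟨hbi, hb⟩)) (by
    intro b hb
    have hbi : b ≠ i := by rintro rfl; exact hb hi
    rw [Function.update_of_ne hbi]
    have := h2 b (fun h => hb (mem_erase.1 h).2)
    rwa [Function.update_of_ne hbi] at this) (by
    intro a b hab
    by_cases ha : a = i
    · subst ha
      rw [Function.update_self]
      exact Nat.coprime_one_left _
    · by_cases hb : b = i
      · subst hb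
        rw [Function.update_self]
        exact Nat.coprime_one_right _
      · rw [Function.update_of_ne ha, Function.update_of_ne hb]
        exact h3 a b hab) j hjW
  refine ⟨φ, a1, fun p hp hpe => ?_, a3⟩
  rw [← Ps_update e 1 (hW j hjW i hi) (hW i hi j hjW)]
  apply a2 p hp
  intro b
  by_cases hb : b = i
  · subst hb
    rw [Function.update_self]
    exact (mem_PS.1 hp).2.one_lt.ne' ∘ Nat.dvd_one.1
  · rw [Function.update_of_ne hb]
    exact hpe b

/-- the sum when some of the variables of `W` are large -/
lemma res_case {w : ι → ℝ} {L : ι → ι → Bool} {κ : ι → ℤ} {c z A y : ℕ} {C : ℝ}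
    (hw : ∀ i, 0 ≤ w i) (hcz : c + A ≤ z) (hC : 0 ≤ C) (hF : FS w c z A C) (hy : z < y)
    {V Y : ℕ} (hVY : V ≤ Y) {B E G : ι → ℝ}
    (hE : ∀ i, ∑ m ∈ (PP z y).divisors.filter (fun m => m ≤ V), gw (w i) (c + A) m * hh m ≤ E i)
    (hG : ∀ i, ∑ m ∈ (PP z y).divisors.filter (fun m => Y < m), gw (w i) (c + A) m * hh m ≤ G i)
    (U : Finset ι) : ∀ (W : Finset ι) (t : ι → Finset ℕ), U ⊆ W →
    (∀ i ∈ W, ∀ j ∈ W, L i j = false) → (∀ b, t b ⊆ (PP z y).divisors) →
    (∀ b ∈ W, b ∉ U → t b = (PP z y).divisors) → (∀ b ∈ U, t b = lg z y V Y) →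
    CH L κ z y W t B →
    |∑ d ∈ Fintype.piFinset t, HH w L κ c d| ≤
      C * (∏ i ∈ U, (Real.exp (w i * B i) + E i + G i)) * Real.exp (∑ i ∈ W \ U, w i * B i) *
        ∏ b ∈ univ \ W, ∑ m ∈ t b, gw (w b) (c + A) m * hh m := by
  induction U using Finset.induction_on with
  | empty =>
    intro W t _ hW ht htW _ hB
    rw [prod_empty, mul_one, sdiff_empty]
    exact full_case hw hcz hC hF hy hW ht (fun b hb => htW b hb (notMem_empty b)) hB
  | insert i U hi ih =>
    intro W t hUW hW ht htW htU hB
    have hiW : i ∈ W := hUW (mem_insert_self i U)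
    have hnn : ∀ b, ∀ m ∈ (PP z y).divisors, 0 ≤ gw (w b) (c + A) m * hh m := fun b m hm =>
      mul_nonneg (gw_nonneg (hw b) hcz hm) (hh_nonneg _)
    have hE0 : ∀ i, 0 ≤ E i := fun i =>
      (sum_nonneg fun m hm => hnn i m (mem_filter.1 hm).1).trans (hE i)
    have hG0 : ∀ i, 0 ≤ G i := fun i =>
      (sum_nonneg fun m hm => hnn i m (mem_filter.1 hm).1).trans (hG i)
    rw [split_lg hVY t i (htU i (mem_insert_self i U))]
    have hsubD : ∀ (X : Finset ℕ), X ⊆ (PP z y).divisors → ∀ b,
        Function.update t i X b ⊆ (PP z y).divisors := by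
      intro X hX b
      by_cases hb : b = i
      · subst hb; rw [Function.update_self]; exact hX
      · rw [Function.update_of_ne hb]; exact ht b
    have hUne : ∀ b ∈ U, b ≠ i := by
      rintro b hb rfl
      exact hi hb
    have htU' : ∀ X, ∀ b ∈ U, Function.update t i X b = lg z y V Y := by
      intro X b hb
      rw [Function.update_of_ne (hUne b hb)]
      exact htU b (mem_insert_of_mem hb)
    set PU := ∏ i ∈ U, (Real.exp (w i * B i) + E i + G i) with hPU
    set SW := Real.exp (∑ i ∈ W \ insert i U, w i * B i) with hSW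
    set PW := ∏ b ∈ univ \ W, ∑ m ∈ t b, gw (w b) (c + A) m * hh m with hPW
    have hPU0 : 0 ≤ PU := prod_nonneg fun i _ => by
      have := hE0 i
      have := hG0 i
      have := (Real.exp_pos (w i * B i)).le
      linarith
    have hPW0 : 0 ≤ PW := prod_nonneg fun b _ => sum_nonneg fun m hm => hnn b m (ht b hm)
    have hSW0 : 0 ≤ SW := (Real.exp_pos _).le
    have hPWX : ∀ X, ∏ b ∈ univ \ W, ∑ m ∈ Function.update t i X b,
        gw (w b) (c + A) m * hh m = PW := by
      intro X
      rw [hPW]
      apply prod_congr rfl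
      intro b hb
      rw [Function.update_of_ne (by rintro rfl; exact (mem_sdiff.1 hb).2 hiW)]
    have a1 := ih W (Function.update t i (PP z y).divisors) ((subset_insert i U).trans hUW) hW
      (hsubD _ (Subset.refl _)) (by
        intro b hb hbU
        by_cases hbi : b = i
        · subst hbi; rw [Function.update_self]
        · rw [Function.update_of_ne hbi]
          apply htW b hb
          rw [mem_insert, not_or]
          exact ⟨hbi, hbU⟩) (htU' _) (CH_full hB hiW _)
    have hWU : W \ U = insert i (W \ insert i U) := by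
      ext b
      simp only [mem_sdiff, mem_insert]
      constructor
      · rintro ⟨h1, h2⟩
        by_cases hbi : b = i
        · exact Or.inl hbi
        · exact Or.inr ⟨h1, by rintro (h | h); exacts [hbi h, h2 h]⟩
      · rintro (rfl | ⟨h1, h2⟩)
        · exact ⟨hiW, hi⟩
        · exact ⟨h1, fun h => h2 (Or.inr h)⟩
    rw [hWU, sum_insert (by simp), Real.exp_add, hPWX] at a1
    have hWe : (W.erase i) \ U = W \ insert i U := by
      ext b
      simp only [mem_sdiff, mem_insert, mem_erase]
      tauto
    have hUe : univ \ (W.erase i) = insert i (univ \ W) := by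
      ext b
      simp only [mem_sdiff, mem_insert, mem_erase, mem_univ, true_and]
      by_cases hbi : b = i
      · simp [hbi]
      · simp [hbi]
    have aX : ∀ X, X ⊆ (PP z y).divisors →
        |∑ d ∈ Fintype.piFinset (Function.update t i X), HH w L κ c d| ≤
          C * PU * SW * ((∑ m ∈ X, gw (w i) (c + A) m * hh m) * PW) := by
      intro X hX
      have := ih (W.erase i) (Function.update t i X) (by
          intro b hb
          exact mem_erase.2 ⟨hUne b hb, hUW (mem_insert_of_mem hb)⟩)
        (fun a ha b hb => hW a (mem_erase.1 ha).2 b (mem_erase.1 hb).2)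
        (hsubD _ hX) (by
          intro b hb hbU
          rw [Function.update_of_ne (mem_erase.1 hb).1]
          apply htW b (mem_erase.1 hb).2
          rw [mem_insert, not_or]
          exact ⟨(mem_erase.1 hb).1, hbU⟩) (htU' _) (CH_erase hB hW hiW _)
      rw [hWe, hUe, prod_insert (by simp [hiW]), hPWX, Function.update_self] at this
      exact this
    have a2 := aX _ (filter_subset (fun m => m ≤ V) _)
    have a3 := aX _ (filter_subset (fun m => Y < m) _)
    rw [prod_insert hi]
    have hcoef : 0 ≤ C * PU * SW := mul_nonneg (mul_nonneg hC hPU0) hSW0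
    have b2 : C * PU * SW * ((∑ m ∈ (PP z y).divisors.filter (fun m => m ≤ V),
        gw (w i) (c + A) m * hh m) * PW) ≤ C * PU * SW * (E i * PW) :=
      mul_le_mul_of_nonneg_left (mul_le_mul_of_nonneg_right (hE i) hPW0) hcoef
    have b3 : C * PU * SW * ((∑ m ∈ (PP z y).divisors.filter (fun m => Y < m),
        gw (w i) (c + A) m * hh m) * PW) ≤ C * PU * SW * (G i * PW) :=
      mul_le_mul_of_nonneg_left (mul_le_mul_of_nonneg_right (hG i) hPW0) hcoef
    refine (abs_sub _ _).trans ?_
    have b4 := abs_sub (∑ d ∈ Fintype.piFinset (Function.update t i (PP z y).divisors),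
      HH w L κ c d) (∑ d ∈ Fintype.piFinset (Function.update t i
        ((PP z y).divisors.filter (fun m => m ≤ V))), HH w L κ c d)
    calc _ ≤ C * PU * (Real.exp (w i * B i) * SW) * PW + C * PU * SW * (E i * PW) +
          C * PU * SW * (G i * PW) := by linarith
      _ = _ := by ring

end Pool.Agent.W307.RT
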