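import Mathlib
import Pool.Agent.W307.RT.RAT3

/-! Project RT: the refined abstract bound, the characters. -/

namespace Pool.Agent.W307.RT

open Finset Pool.Agent.W262.RK Pool.Agent.W262.RK.AT

variable {ι : Type} [Fintype ι] [DecidableEq ι]

/-- the bounds for sums of characters -/
structure CB (κ : ι → ℤ) (N : Finset ι) (z : ℕ) (C0 : ℝ) : Prop where
  z2 : 2 ≤ z
  c0 : 0 ≤ C0
  M : ∀ y, z < y → ∑ p ∈ PS z y, (1 : ℝ) / p ≤ Real.log (Real.log y) + C0
  X : ∀ y, z < y → ∑ p ∈ PS z y, x4 true p / (p : ℝ) ≤ C0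
  U : ∀ i (y r : ℕ) (e : Bool), z < y → 1 < r → Squarefree r →
    (∀ p : ℕ, p.Prime → p ∣ r → z < p) →
    ∑ p ∈ PS z y, Jr p r * Jr (κ i) p * x4 e p / (p : ℝ) ≤ Real.log (Real.log r) + C0
  K : ∀ n ∈ N, ∀ y, ∀ p ∈ PS z y, Jr (κ n) p = x4 true p

lemma abs_Ps_le (L : ι → ι → Bool) (κ : ι → ℤ) (e : ι → ℕ) (i : ι) (m : ℕ) :
    |Ps L κ e i m| ≤ 1 := by
  unfold Ps XX
  rw [abs_mul]
  apply mul_le_one₀ _ (abs_nonneg _) (abs_Jr_le _ _)
  apply abs_prod_le_one
  intro k _
  rw [abs_mul]
  exact mul_le_one₀ (abs_ite_Jr _ _ _) (abs_nonneg _) (abs_ite_Jr _ _ _)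

/-- the trivial bound -/
lemma ch_triv {κ : ι → ℤ} {N : Finset ι} {z : ℕ} {C0 : ℝ} (hC : CB κ N z C0)
    (L : ι → ι → Bool) (e : ι → ℕ) (i : ι) {y : ℕ} (hy : z < y) :
    ∑ p ∈ PS z y, Ps L κ e i p / (p : ℝ) ≤ Real.log (Real.log y) + C0 := by
  refine le_trans ?_ (hC.M y hy)
  apply sum_le_sum
  intro p _
  apply div_le_div_of_nonneg_right _ (Nat.cast_nonneg p)
  exact (abs_le.1 (abs_Ps_le L κ e i p)).2

/-- the characters of `N` when no other variable is linked to them -/
lemma CH1 {L : ι → ι → Bool} {κ : ι → ℤ} {N : Finset ι} {z : ℕ} {C0 : ℝ} (hC : CB κ N z C0)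
    {ρ : ι → Fin 4} {y V Y : ℕ} (hy : z < y)
    (hN : ∀ n ∈ N, ∀ b, b ∉ N → ρ b ≠ 0 → b ∉ UU N ρ → L n b = false ∧ L b n = false)
    {G : ℝ} (hG : 0 ≤ Real.log G) :
    CH L κ z y (WW N ρ) (tN N z y V Y ρ)
      (fun i => C0 + if i ∈ UU N ρ then Real.log (Real.log y) else Real.log G) := by
  intro e h1 h2 _ i hi
  by_cases hiU : i ∈ UU N ρ
  · refine ⟨fun p => Ps L κ e i p, abs_Ps_le L κ e i, fun p _ _ => rfl, ?_⟩
    have := ch_triv hC L e i hy
    simp only
    rw [if_pos hiU]
    linarith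
  · have hiN : i ∈ N := by
      rw [mem_WW] at hi
      rw [mem_UU] at hiU
      tauto
    refine ⟨fun p => x4 true p, fun p => abs_x4_le _ _, fun p hp _ => ?_, ?_⟩
    · unfold Ps XX
      rw [hC.K i hiN y p hp, prod_eq_one, one_mul]
      intro b _
      by_cases hbe : e b = 1
      · rw [hbe]
        have h4 : Jr ((1 : ℕ) : ℤ) p = 1 := by simp [Jr, jacobiSym.one_left]
        rw [h4, Jr_one_right]
        simp
      · have hbW : b ∉ WW N ρ := fun h => hbe (h1 b h)
        have hb2 := h2 b hbW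
        have hbN : b ∉ N := fun h => hbW (mem_WW.2 (Or.inl h))
        have hbU : b ∉ UU N ρ := fun h => hbW (mem_WW.2 (Or.inr (mem_UU.1 h).2))
        unfold tN at hb2
        rw [if_neg hbN] at hb2
        have hb0 : ρ b ≠ 0 := by
          intro h0
          rw [h0] at hb2
          exact hbe (cell_zero hb2)
        obtain ⟨a1, a2⟩ := hN i hiN b hbN hb0 hbU
        rw [a1, a2]
        simp
    · simp only
      rw [if_neg hiU]
      have := hC.X y hy
      linarith

/-- the characters when there is a small variable -/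
lemma CH2 {L : ι → ι → Bool} {κ : ι → ℤ} {N : Finset ι} {z : ℕ} {C0 : ℝ} (hC : CB κ N z C0)
    {ρ : ι → Fin 4} {y V Y : ℕ} (hy : z < y) (hV : 3 ≤ V) (h3 : ∀ b, b ∉ N → ρ b ≠ 3)
    {b0 : ι} (hb0 : b0 ∉ N) (hb1 : ρ b0 = 1) :
    CH L κ z y (WW N ρ) (tN N z y V Y ρ)
      (fun i => (C0 + Real.log (Fintype.card ι)) +
        if i ∈ univ.filter (fun i => L i b0 = L b0 i) then Real.log (Real.log y)
        else Real.log (Real.log V)) := by
  intro e h1 h2 hcop i hi
  set M := Fintype.card ι with hM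
  have hM1 : 1 ≤ M := Fintype.card_pos_iff.2 ⟨b0⟩
  have hlM : 0 ≤ Real.log M := Real.log_natCast_nonneg M
  by_cases hiP : i ∈ univ.filter (fun i => L i b0 = L b0 i)
  · refine ⟨fun p => Ps L κ e i p, abs_Ps_le L κ e i, fun p _ _ => rfl, ?_⟩
    have := ch_triv hC L e i hy
    simp only
    rw [if_pos hiP]
    linarith
  · have hlink : L i b0 ≠ L b0 i := fun h => hiP (mem_filter.2 ⟨mem_univ i, h⟩)
    have heD : ∀ b, e b ∈ (PP z y).divisors := by
      intro b
      by_cases hb : b ∈ WW N ρ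
      · rw [h1 b hb]; exact one_mem_dv z y
      · exact tN_sub N z y V Y ρ b (h2 b hb)
    have heV : ∀ b, e b ≤ V := by
      intro b
      by_cases hb : b ∈ WW N ρ
      · rw [h1 b hb]; omega
      · have hb2 := h2 b hb
        rw [mem_WW, not_or] at hb
        unfold tN at hb2
        rw [if_neg hb.1] at hb2
        have h3b := h3 b hb.1
        have hcases : ρ b = 0 ∨ ρ b = 1 := by
          have h2b := hb.2
          revert h2b h3b
          generalize ρ b = r
          revert r
          decide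
        rcases hcases with h0 | h0
        · rw [h0] at hb2
          have := cell_zero hb2
          omega
        · rw [h0] at hb2
          exact (cell_one hb2).2
    have hb0W : b0 ∉ WW N ρ := by
      rw [mem_WW, not_or]
      refine ⟨hb0, ?_⟩
      rw [hb1]
      decide
    have he0 : 1 < e b0 := by
      have := h2 b0 hb0W
      unfold tN at this
      rw [if_neg hb0, hb1] at this
      exact (cell_one this).1
    have hne : b0 ≠ i := by
      rintro rfl
      exact hlink rfl
    have hmem : b0 ∈ (univ.erase i).filter (fun b => L i b ≠ L b i) :=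
      mem_filter.2 ⟨mem_erase.2 ⟨hne, mem_univ _⟩, hlink⟩
    have hr1 : 1 < lk L i e := by
      unfold lk
      rw [← mul_prod_erase _ _ hmem]
      have : 0 < ∏ b ∈ ((univ.erase i).filter (fun b => L i b ≠ L b i)).erase b0, e b :=
        prod_pos fun b _ => dv_pos (heD b)
      nlinarith
    have hr2 : lk L i e ≤ V ^ M := by
      unfold lk
      calc ∏ b ∈ (univ.erase i).filter (fun b => L i b ≠ L b i), e b
          ≤ ∏ b ∈ (univ.erase i).filter (fun b => L i b ≠ L b i), V :=
            prod_le_prod' fun b _ => heV b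
        _ = V ^ ((univ.erase i).filter (fun b => L i b ≠ L b i)).card := by rw [prod_const]
        _ ≤ V ^ M := Nat.pow_le_pow_right (by omega)
            ((card_le_card (subset_univ _)).trans (le_of_eq card_univ))
    have hsq : Squarefree (lk L i e) := by
      unfold lk
      apply squarefree_prod
      · intro b _
        exact dv_squarefree (heD b)
      · intro a _ b _ hab
        exact hcop a b hab
    obtain ⟨s, hs⟩ := XX_char L i e (fun b => dv_odd hC.z2 (heD b))
    refine ⟨fun p => Jr p (lk L i e) * Jr (κ i) p * x4 s p, fun p => ?_, fun p hp hpe => ?_, ?_⟩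
    · rw [abs_mul, abs_mul]
      exact mul_le_one₀ (mul_le_one₀ (abs_Jr_le _ _) (abs_nonneg _) (abs_Jr_le _ _))
        (abs_nonneg _) (abs_x4_le _ _)
    · have hp' := (mem_PS.1 hp)
      have hpodd : Odd p := by
        apply hp'.2.odd_of_ne_two
        have := hC.z2
        omega
      unfold Ps
      rw [hs p hpodd fun b _ => (Nat.Prime.coprime_iff_not_dvd hp'.2).2 (hpe b)]
      ring
    · simp only
      rw [if_neg hiP]
      refine (hC.U i y (lk L i e) s hy hr1 hsq fun p hp hpr => lk_primes heD hp hpr).trans ?_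
      have hlr : 0 < Real.log (lk L i e) := Real.log_pos (by exact_mod_cast hr1)
      have hlV : 0 < Real.log V := Real.log_pos (by exact_mod_cast (by omega : 1 < V))
      have a1 : Real.log (lk L i e) ≤ M * Real.log V := by
        rw [← Real.log_pow]
        apply Real.log_le_log (by exact_mod_cast (by omega : 0 < lk L i e))
        exact_mod_cast hr2
      have a2 : Real.log (Real.log (lk L i e)) ≤ Real.log M + Real.log (Real.log V) := by
        rw [← Real.log_mul (by exact_mod_cast (by omega : M ≠ 0)) hlV.ne']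
        exact Real.log_le_log hlr a1
      linarith

/-- all patterns with a large variable `k0` -/
lemma pat2 {w : ι → ℝ} {L : ι → ι → Bool} {κ : ι → ℤ} {c z : ℕ} {C : ℝ} (hB : Bd w κ c z C)
    {C2 : ℝ} {E2 : ℕ} (hC2 : 0 ≤ C2) (h2 : BW C2 E2) (hL : ∀ i, L i i = false) {K : ℝ}
    (hK0 : 0 ≤ K) {k0 : ι} (hK : ∀ U : Finset ι, (∀ i ∈ U, ∀ j ∈ U, L i j = L j i) → k0 ∈ U →
      ∑ i ∈ U, w i ≤ K) (π : ι → Fin 4) (hk0 : π k0 = 2) : ∃ C' : ℝ, ∀ y, z < y →
      |∑ d ∈ Fintype.piFinset (fun b => cell z y (VV (6 * (Fintype.card ι + 2 * E2)) (Real.log y))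
        (YY (6 * (Fintype.card ι + 2 * E2)) (Real.log y)) (π b)), HH w L κ c d| ≤
        C' * (Real.log y) ^ K := by
  by_cases h3 : ∃ k, π k = 3
  · obtain ⟨k, hk⟩ := h3
    exact tail_case hB _ hK0 π hk
  push Not at h3
  by_cases hl : ∃ i j, π i = 2 ∧ π j = 2 ∧ L i j ≠ L j i
  · obtain ⟨i, j, hi, hj, hij⟩ := hl
    exact link_case hB hC2 h2 hL le_rfl hK0 π hi hj hij
  push Not at hl
  have hk0U : k0 ∈ univ.filter (fun k => π k = 2) := mem_filter.2 ⟨mem_univ _, hk0⟩
  have hS : ∑ k ∈ univ.filter (fun k => π k = 2), w k ≤ K := by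
    apply hK _ _ hk0U
    intro i hi j hj
    exact hl i j (mem_filter.1 hi).2 (mem_filter.1 hj).2
  rcases hS.lt_or_eq with hlt | heq
  · exact triv_case hB _ π h3 hlt
  by_cases h1 : ∃ j, π j = 1
  · obtain ⟨j, hj⟩ := h1
    have hex : ∃ i, π i = 2 ∧ L i j ≠ L j i := by
      by_contra hcon
      push Not at hcon
      have hjn : j ∉ univ.filter (fun k => π k = 2) := by
        rw [mem_filter, hj]
        rintro ⟨-, h⟩
        exact absurd h (by decide)
      have := hK (insert j (univ.filter (fun k => π k = 2))) (by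
        intro a ha b hb
        rw [mem_insert] at ha hb
        rcases ha with rfl | ha
        · rcases hb with rfl | hb
          · rfl
          · exact (hcon b (mem_filter.1 hb).2).symm
        · rcases hb with rfl | hb
          · exact hcon a (mem_filter.1 ha).2
          · exact hl a b (mem_filter.1 ha).2 (mem_filter.1 hb).2) (mem_insert_of_mem hk0U)
      rw [sum_insert hjn, heq] at this
      have := hB.w0 j
      linarith
    obtain ⟨i, hi, hij⟩ := hex
    exact max_case hB hL _ π h3 hi hj hij (fun k hk => hl i k hi hk) hS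
  · push Not at h1
    refine diag_case hB _ π (fun k => ?_) hS
    have a1 := h1 k
    have a3 := h3 k
    revert a1 a3
    generalize π k = r
    revert r
    decide

/-- the decomposition into patterns outside `N` -/
lemma patternsN (N : Finset ι) (z y V Y : ℕ) (F : (ι → ℕ) → ℝ) :
    ∑ d ∈ Fintype.piFinset (fun _ : ι => (PP z y).divisors), F d =
      ∑ ρ ∈ univ.filter (fun ρ : ι → Fin 4 => ∀ n ∈ N, ρ n = 0),
        ∑ d ∈ Fintype.piFinset (tN N z y V Y ρ), F d := by
  rw [← sum_fiberwise_of_maps_to (s := Fintype.piFinset (fun _ : ι => (PP z y).divisors))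
    (t := univ.filter (fun ρ : ι → Fin 4 => ∀ n ∈ N, ρ n = 0))
    (g := fun d k => if k ∈ N then 0 else cl V Y (d k))]
  · apply sum_congr rfl
    intro ρ hρ
    have hρ' := (mem_filter.1 hρ).2
    apply sum_congr _ (fun _ _ => rfl)
    ext d
    simp only [mem_filter, Fintype.mem_piFinset, tN]
    constructor
    · rintro ⟨h1, h2⟩ k
      by_cases hk : k ∈ N
      · rw [if_pos hk]; exact h1 k
      · rw [if_neg hk]
        have := congrFun h2 k
        simp only [if_neg hk] at this
        exact mem_filter.2 ⟨h1 k, this⟩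
    · intro h
      refine ⟨fun k => tN_sub N z y V Y ρ k (h k), funext fun k => ?_⟩
      have := h k
      by_cases hk : k ∈ N
      · simp only [if_pos hk]
        exact (hρ' k hk).symm
      · simp only [if_neg hk] at this ⊢
        exact (mem_filter.1 this).2
  · intro d _
    rw [mem_filter]
    refine ⟨mem_univ _, fun n hn => ?_⟩
    simp [hn]

/-- refining a pattern -/
lemma refine_pat {w : ι → ℝ} {L : ι → ι → Bool} {κ : ι → ℤ} {c z : ℕ} {K : ℝ} (A : ℕ)
    (N : Finset ι) (ρ : ι → Fin 4)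
    (h : ∀ π : ι → Fin 4, (∀ b, b ∉ N → π b = ρ b) → ∃ C' : ℝ, ∀ y, z < y →
      |∑ d ∈ Fintype.piFinset (fun b => cell z y (VV A (Real.log y)) (YY A (Real.log y)) (π b)),
        HH w L κ c d| ≤ C' * (Real.log y) ^ K) :
    ∃ C' : ℝ, ∀ y, z < y →
      |∑ d ∈ Fintype.piFinset (tN N z y (VV A (Real.log y)) (YY A (Real.log y)) ρ),
        HH w L κ c d| ≤ C' * (Real.log y) ^ K := by
  classical
  choose! C' hC' using h
  refine ⟨∑ π ∈ univ.filter (fun π : ι → Fin 4 => ∀ b, b ∉ N → π b = ρ b), C' π,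
    fun y hy => ?_⟩
  set V := VV A (Real.log y)
  set Y := YY A (Real.log y)
  rw [← sum_fiberwise_of_maps_to (s := Fintype.piFinset (tN N z y V Y ρ))
    (t := univ.filter (fun π : ι → Fin 4 => ∀ b, b ∉ N → π b = ρ b))
    (g := fun d k => cl V Y (d k)), sum_mul]
  · refine (abs_sum_le_sum_abs _ _).trans (sum_le_sum fun π hπ => ?_)
    have hπ' := (mem_filter.1 hπ).2
    refine le_of_eq_of_le ?_ (hC' π hπ' y hy)
    congr 1
    apply sum_congr _ (fun _ _ => rfl)
    ext d
    simp only [mem_filter, Fintype.mem_piFinset]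
    constructor
    · rintro ⟨h1, h2⟩ k
      exact mem_filter.2 ⟨tN_sub N z y V Y ρ k (h1 k), congrFun h2 k⟩
    · intro h
      refine ⟨fun k => ?_, funext fun k => (mem_filter.1 (h k)).2⟩
      unfold tN
      by_cases hk : k ∈ N
      · rw [if_pos hk]; exact cell_sub _ _ _ _ _ (h k)
      · rw [if_neg hk, ← hπ' k hk]; exact h k
  · intro d hd
    rw [mem_filter]
    refine ⟨mem_univ _, fun b hb => ?_⟩
    have := Fintype.mem_piFinset.1 hd b
    unfold tN at this
    rw [if_neg hb] at this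
    exact (mem_filter.1 this).2

end Pool.Agent.W307.RT
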