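import Mathlib
import Pool.Agent.W307.RT.RAT4
import Pool.Agent.W655.RK.Full

/-! Project RT: the refined abstract bound. -/

namespace Pool.Agent.W307.RT

open Finset Pool.Agent.W262.RK Pool.Agent.W262.RK.AT

section

variable {ι : Type} [Fintype ι] [DecidableEq ι]

lemma mem_QN {L : ι → ι → Bool} {N : Finset ι} {i : ι} :
    i ∈ QN L N ↔ i ∉ N ∧ ∀ n ∈ N, L i n = false ∧ L n i = false := by
  classical
  simp [QN]

/-- the constants of `N` give the character modulo 4 -/
lemma Jr_neg_sq {k : ℤ} (hk : k ≠ 0) {z p : ℕ} (hz : (-(k * k)).natAbs ≤ z) (hz2 : 2 ≤ z)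
    (hzp : z < p) (hp : p.Prime) : Jr (-(k * k)) p = x4 true p := by
  have hpodd : Odd p := hp.odd_of_ne_two (by omega)
  have hk1 : k.natAbs ≤ (-(k * k)).natAbs := by
    rw [Int.natAbs_neg, Int.natAbs_mul]
    have : 0 < k.natAbs := Int.natAbs_pos.2 hk
    nlinarith
  have hcop : Int.gcd k p = 1 := by
    have h1 : Nat.Coprime p k.natAbs :=
      (Nat.Prime.coprime_iff_not_dvd hp).2 fun h =>
        absurd (Nat.le_of_dvd (Int.natAbs_pos.2 hk) h) (by omega)
    have h2 : Int.gcd k p = Nat.gcd k.natAbs p := rfl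
    rw [h2]
    exact h1.symm
  unfold Jr x4
  rw [jacobiSym.neg _ hpodd, ← sq, jacobiSym.sq_one' hcop, mul_one, if_pos rfl]

/-- the final estimate when there is some room in the exponent -/
lemma fin_lt {w : ι → ℝ} {L : ι → ι → Bool} {κ : ι → ℤ} {c z : ℕ} {K S C1 : ℝ} (hz : 2 ≤ z)
    (A M : ℕ) (hSK : S < K) (hC1 : 0 ≤ C1) (t : ℕ → ι → Finset ℕ)
    (h : ∀ y, z < y → |∑ d ∈ Fintype.piFinset (t y), HH w L κ c d| ≤
      C1 * (Real.log y) ^ S * (Real.log (VV A (Real.log y))) ^ M) :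
    ∃ C' : ℝ, ∀ y, z < y → |∑ d ∈ Fintype.piFinset (t y), HH w L κ c d| ≤
      C' * (Real.log y) ^ K := by
  obtain ⟨C3, hC3, h3⟩ := log_VV_pow_le A M (sub_pos.2 hSK)
  refine ⟨C1 * C3, fun y hy => (h y hy).trans ?_⟩
  have hly := one_le_log hz hy
  have hl0 : 0 < Real.log y := by linarith
  calc C1 * (Real.log y) ^ S * (Real.log (VV A (Real.log y))) ^ M
      ≤ C1 * (Real.log y) ^ S * (C3 * (Real.log y) ^ (K - S)) :=
        mul_le_mul_of_nonneg_left (h3 _ hly) (by positivity)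
    _ = C1 * C3 * ((Real.log y) ^ S * (Real.log y) ^ (K - S)) := by ring
    _ = _ := by rw [← Real.rpow_add hl0]; congr 2; ring

/-- one pattern -/
lemma pat_rat {w : ι → ℝ} {L : ι → ι → Bool} {κ : ι → ℤ} {c z A : ℕ} {K C C1 Cs C0 C2 : ℝ}
    {E2 : ℕ} {N : Finset ι} (hBd : Bd w κ c z C) (hFB : FB w (c + A) z C1) (hCs : 0 ≤ Cs)
    (hFs : FS w c z A Cs) (hCB : CB κ N z C0) (hC2 : 0 ≤ C2) (h2 : BW C2 E2)
    (hL : ∀ i, L i i = false) (hN2 : ∀ n ∈ N, ∀ m ∈ N, L n m = false)
    (hQ1 : ∀ i ∈ QN L N, ∀ j ∈ QN L N, L i j = false) (hQ2 : ∑ i ∈ QN L N, w i ≤ K)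
    (hU : ∀ U : Finset ι, (∀ i ∈ U, ∀ j ∈ U, L i j = L j i) →
      (∃ k ∈ U, k ∉ N ∧ k ∉ QN L N) → ∑ i ∈ U, w i ≤ K)
    (hS : ∀ b, b ∉ N → b ∉ QN L N →
      ∑ i ∈ (QN L N ∪ N).filter (fun i => L i b = L b i), w i < K) (ρ : ι → Fin 4) :
    ∃ C' : ℝ, ∀ y, z < y →
      |∑ d ∈ Fintype.piFinset (tN N z y (VV (6 * (Fintype.card ι + 2 * E2)) (Real.log y))
        (YY (6 * (Fintype.card ι + 2 * E2)) (Real.log y)) ρ), HH w L κ c d| ≤
        C' * (Real.log y) ^ K := by
  classical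
  have hK0 : 0 ≤ K := (sum_nonneg fun i _ => (hBd.w0 i).le).trans hQ2
  set A' := 6 * (Fintype.card ι + 2 * E2) with hA'
  by_cases hA : ∃ k, k ∉ N ∧ ρ k = 3
  · obtain ⟨k, hk1, hk2⟩ := hA
    exact refine_pat A' N ρ fun π hπ => tail_case hBd _ hK0 π (k := k) (by rw [hπ k hk1, hk2])
  push Not at hA
  by_cases hl : ∃ i j, i ∉ N ∧ j ∉ N ∧ ρ i = 2 ∧ ρ j = 2 ∧ L i j ≠ L j i
  · obtain ⟨i, j, hi, hj, hi2, hj2, hij⟩ := hl
    exact refine_pat A' N ρ fun π hπ => link_case hBd hC2 h2 hL le_rfl hK0 π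
      (by rw [hπ i hi, hi2]) (by rw [hπ j hj, hj2]) hij
  by_cases hk : ∃ k, k ∉ N ∧ ρ k = 2 ∧ k ∉ QN L N
  · obtain ⟨k, hk1, hk2, hk3⟩ := hk
    exact refine_pat A' N ρ fun π hπ => pat2 hBd hC2 h2 hL hK0 (k0 := k)
      (fun U hUu hkU => hU U hUu ⟨k, hkU, hk1, hk3⟩) π (by rw [hπ k hk1, hk2])
  push Not at hk
  have hUQ : ∀ b ∈ UU N ρ, b ∈ QN L N := by
    intro b hb
    rw [mem_UU] at hb
    exact hk b hb.1 hb.2
  have hWQ : ∀ b ∈ WW N ρ, b ∈ QN L N ∪ N := by
    intro b hb
    rw [mem_union]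
    by_cases hbN : b ∈ N
    · exact Or.inr hbN
    · left
      apply hUQ
      rw [mem_UU]
      rw [mem_WW] at hb
      tauto
  have hW : ∀ i ∈ WW N ρ, ∀ j ∈ WW N ρ, L i j = false := by
    intro i hi j hj
    rcases mem_union.1 (hWQ i hi) with h1 | h1
    · rcases mem_union.1 (hWQ j hj) with h3 | h3
      · exact hQ1 i h1 j h3
      · exact ((mem_QN.1 h1).2 j h3).1
    · rcases mem_union.1 (hWQ j hj) with h3 | h3
      · exact ((mem_QN.1 h3).2 i h1).2
      · exact hN2 i h1 j h3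
  have hz2 := hBd.z2
  by_cases h1 : ∃ b, b ∉ N ∧ ρ b = 1 ∧ b ∉ QN L N
  · obtain ⟨b0, hb0, hb1, hbQ⟩ := h1
    have hM : 0 ≤ Real.log (Fintype.card ι) := Real.log_natCast_nonneg _
    obtain ⟨C', hC'0, hC'⟩ := main_est (κ := κ) hFB hCs hFs N ρ (fun b hb => hA b hb) hW A'
      (C0 := C0 + Real.log (Fintype.card ι)) (by have := hCB.c0; linarith)
      (univ.filter (fun i => L i b0 = L b0 i))
    have hlt : ∑ i ∈ (WW N ρ).filter (fun i => i ∈ univ.filter (fun i => L i b0 = L b0 i)), w i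
        < K := by
      refine lt_of_le_of_lt ?_ (hS b0 hb0 hbQ)
      apply sum_le_sum_of_subset_of_nonneg
      · intro i hi
        rw [mem_filter] at hi ⊢
        exact ⟨hWQ i hi.1, (mem_filter.1 hi.2).2⟩
      · intro i _ _
        exact (hBd.w0 i).le
    apply fin_lt hz2 A' (2 * Fintype.card ι) hlt hC'0
      (fun y => tN N z y (VV A' (Real.log y)) (YY A' (Real.log y)) ρ)
    intro y hy
    exact hC' y hy (Real.log (VV A' (Real.log y))) (Or.inl rfl)
      (CH2 hCB hy (three_le_VV _ _) (fun b hb => hA b hb) hb0 hb1)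
  push Not at h1
  have hNh : ∀ n ∈ N, ∀ b, b ∉ N → ρ b ≠ 0 → b ∉ UU N ρ → L n b = false ∧ L b n = false := by
    intro n hn b hbN hb0 hbU
    have hb3 := hA b hbN
    have hb2 : ρ b ≠ 2 := fun h => hbU (mem_UU.2 ⟨hbN, h⟩)
    have hb1 : ρ b = 1 := by
      revert hb0 hb2 hb3
      generalize ρ b = r
      revert r
      decide
    have := (mem_QN.1 (h1 b hbN hb1)).2 n hn
    exact ⟨this.2, this.1⟩
  obtain ⟨C', hC'0, hC'⟩ := main_est (κ := κ) hFB hCs hFs N ρ (fun b hb => hA b hb) hW A'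
    hCB.c0 (UU N ρ)
  have hfil : (WW N ρ).filter (fun i => i ∈ UU N ρ) ⊆ QN L N := by
    intro i hi
    exact hUQ i (mem_filter.1 hi).2
  by_cases h0 : ∃ b, b ∉ N ∧ ρ b = 1
  · obtain ⟨b0, hb0, hb1⟩ := h0
    have hbQ := h1 b0 hb0 hb1
    have hlt : ∑ i ∈ (WW N ρ).filter (fun i => i ∈ UU N ρ), w i < K := by
      have e1 : ∑ i ∈ (WW N ρ).filter (fun i => i ∈ UU N ρ), w i ≤
          ∑ i ∈ (QN L N).erase b0, w i := by
        apply sum_le_sum_of_subset_of_nonneg
        · intro i hi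
          rw [mem_erase]
          refine ⟨?_, hfil hi⟩
          rintro rfl
          have := (mem_UU.1 (mem_filter.1 hi).2).2
          rw [hb1] at this
          exact absurd this (by decide)
        · intro i _ _
          exact (hBd.w0 i).le
      have e2 := add_sum_erase (QN L N) w hbQ
      have e3 := hBd.w0 b0
      linarith
    apply fin_lt hz2 A' (2 * Fintype.card ι) hlt hC'0
      (fun y => tN N z y (VV A' (Real.log y)) (YY A' (Real.log y)) ρ)
    intro y hy
    exact hC' y hy (Real.log (VV A' (Real.log y))) (Or.inl rfl)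
      (CH1 hCB hy hNh (Real.log_nonneg (one_le_log_VV _ _)))
  · push Not at h0
    refine ⟨C', fun y hy => ?_⟩
    have h4 := hC' y hy 1 (Or.inr ⟨rfl, Subset.refl _, h0⟩)
      (CH1 hCB hy hNh (by rw [Real.log_one]))
    have hly := one_le_log hz2 hy
    rw [one_pow, mul_one] at h4
    refine h4.trans ?_
    apply mul_le_mul_of_nonneg_left _ hC'0
    apply Real.rpow_le_rpow_of_exponent_le hly
    refine le_trans ?_ hQ2
    exact sum_le_sum_of_subset_of_nonneg hfil fun i _ _ => (hBd.w0 i).le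

end

/-- **The refined abstract bound** -/
theorem rat_of (hb : BLW) (he : EP) (hf : FULL) (hub : UB) (hub4 : UB4) (hfs : FSB) : RAT := by
  intro ι _ _ w L κ c K N hw hL hκ hN1 hN2 hQ1 hQ2 hU hS
  classical
  obtain ⟨C2, E2, h2⟩ := hb
  obtain ⟨zS, A, hFS⟩ := hfs ι w c hw
  choose zE hE using fun i => he (w i) c (κ i) (hw i).1 (hw i).2 (hκ i)
  choose zF hF using fun i => hf (w i) c (hw i).1 (hw i).2
  choose zG hG using fun i => hf (w i) (c + A) (hw i).1 (hw i).2
  obtain ⟨CM, hCM0, hCM⟩ := Pool.Agent.W655.RK.mertens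
  refine ⟨zS + univ.sup zE + univ.sup zF + univ.sup zG + 2 * c + A + 2 + ∑ i, (κ i).natAbs,
    fun z hz => ?_⟩
  have hzE : ∀ i, zE i ≤ z := fun i => (le_sup (f := zE) (mem_univ i)).trans (by omega)
  have hzF : ∀ i, zF i ≤ z := fun i => (le_sup (f := zF) (mem_univ i)).trans (by omega)
  have hzG : ∀ i, zG i ≤ z := fun i => (le_sup (f := zG) (mem_univ i)).trans (by omega)
  have hzκ : ∀ i, (κ i).natAbs ≤ z := fun i => by
    have := single_le_sum (f := fun i => (κ i).natAbs) (fun _ _ => Nat.zero_le _) (mem_univ i)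
    omega
  choose CE hCE using fun i => hE i z (hzE i)
  choose CF hCF1 hCF2 hCF3 using fun i => hF i z (hzF i)
  choose CG hCG1 hCG2 hCG3 using fun i => hG i z (hzG i)
  choose CU hCU using fun i => hub (κ i) z (hκ i) (by omega) (hzκ i)
  obtain ⟨Cs, hCs1, hFs⟩ := hFS z (by omega)
  obtain ⟨C4, hC4⟩ := hub4 z
  set C : ℝ := 1 + ∑ i, (|CE i| + |CF i| + |CG i| + |CU i|) with hC
  have hCi : ∀ i, |CE i| + |CF i| + |CG i| + |CU i| ≤ C := by
    intro i
    have h1 : |CE i| + |CF i| + |CG i| + |CU i| ≤ ∑ i, (|CE i| + |CF i| + |CG i| + |CU i|) :=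
      single_le_sum (f := fun i => |CE i| + |CF i| + |CG i| + |CU i|) (fun j _ => by positivity)
        (mem_univ i)
    linarith
  have hCE' : ∀ i, CE i ≤ C := fun i => by
    have := le_abs_self (CE i)
    have := abs_nonneg (CF i)
    have := abs_nonneg (CG i)
    have := abs_nonneg (CU i)
    linarith [hCi i]
  have hCF' : ∀ i, CF i ≤ C := fun i => by
    have := le_abs_self (CF i)
    have := abs_nonneg (CE i)
    have := abs_nonneg (CG i)
    have := abs_nonneg (CU i)
    linarith [hCi i]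
  have hCG' : ∀ i, CG i ≤ C := fun i => by
    have := le_abs_self (CG i)
    have := abs_nonneg (CE i)
    have := abs_nonneg (CF i)
    have := abs_nonneg (CU i)
    linarith [hCi i]
  have hCU' : ∀ i, CU i ≤ C := fun i => by
    have := le_abs_self (CU i)
    have := abs_nonneg (CE i)
    have := abs_nonneg (CF i)
    have := abs_nonneg (CG i)
    linarith [hCi i]
  have hC1 : 1 ≤ C := by
    rw [hC]
    have : 0 ≤ ∑ i, (|CE i| + |CF i| + |CG i| + |CU i|) := sum_nonneg fun i _ => by positivity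
    linarith
  have hBd : AT.Bd w κ c z C :=
    { w0 := fun i => (hw i).1
      w1 := fun i => (hw i).2
      z2 := by omega
      zc := by omega
      C1 := hC1
      F1 := fun i y hy => (hCF1 i y hy).trans (mul_le_mul_of_nonneg_right (hCF' i)
        (Real.rpow_nonneg (Real.log_natCast_nonneg y) _))
      F2 := fun i y V hy hV => (hCF2 i y V hy hV).trans (mul_le_mul_of_nonneg_right (hCF' i)
        (Real.rpow_nonneg (Real.log_natCast_nonneg V) _))
      F3 := fun i y Y hy hY => (hCF3 i y Y hy hY).trans (by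
        apply mul_le_mul_of_nonneg_right _ (by positivity)
        exact mul_le_mul_of_nonneg_right (hCF' i) (Real.exp_pos _).le)
      E := fun i y R r e hy hR hr hs hp => (hCE i y R r e hy hR hr hs hp).trans (by
        apply mul_le_mul_of_nonneg_right _ (hh_nonneg _)
        exact mul_le_mul_of_nonneg_right (hCE' i)
          (Real.rpow_nonneg (Real.log_natCast_nonneg r) _)) }
  have hFB : FB w (c + A) z C :=
    { w0 := fun i => (hw i).1
      w1 := fun i => (hw i).2
      z2 := by omega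
      zc := by omega
      C1 := hC1
      F2 := fun i y V hy hV => (hCG2 i y V hy hV).trans (mul_le_mul_of_nonneg_right (hCG' i)
        (Real.rpow_nonneg (Real.log_natCast_nonneg V) _))
      F3 := fun i y Y hy hY => (hCG3 i y Y hy hY).trans (by
        apply mul_le_mul_of_nonneg_right _ (by positivity)
        exact mul_le_mul_of_nonneg_right (hCG' i) (Real.exp_pos _).le) }
  have hCB : CB κ N z (C + CM + |C4|) :=
    { z2 := by omega
      c0 := by positivity
      M := fun y hy => (hCM z y (by omega)).trans (by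
        have := abs_nonneg C4
        linarith)
      X := fun y hy => (hC4 y hy).trans (by
        have := le_abs_self C4
        linarith)
      U := fun i y r e hy hr hs hp => (hCU i y r e hy hr hs hp).trans (by
        have := abs_nonneg C4
        have := hCU' i
        linarith)
      K := fun n hn y p hp => by
        obtain ⟨k, hk⟩ := hN1 n hn
        have hk0 : k ≠ 0 := by
          rintro rfl
          exact hκ n (by rw [hk]; simp)
        have hzn := hzκ n
        rw [hk] at hzn ⊢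
        have hp' := mem_PS.1 hp
        exact Jr_neg_sq hk0 hzn (by omega) hp'.1.1 hp'.2 }
  have h2' : AT.BW |C2| E2 := fun V Y hV hVY a b ha hb ha' hb' =>
    (h2 V Y hV hVY a b ha hb ha' hb').trans (by
      apply mul_le_mul_of_nonneg_right _ (by positivity)
      exact mul_le_mul_of_nonneg_right (le_abs_self C2)
        (pow_nonneg (Real.log_natCast_nonneg Y) _))
  choose C' hC' using fun ρ : ι → Fin 4 => pat_rat hBd hFB (zero_le_one.trans hCs1) hFs hCB
    (abs_nonneg C2) h2' hL hN2 hQ1 hQ2 hU hS ρ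
  refine ⟨∑ ρ ∈ univ.filter (fun ρ : ι → Fin 4 => ∀ n ∈ N, ρ n = 0), C' ρ, fun y hy => ?_⟩
  rw [AT.total_eq, patternsN N z y (AT.VV (6 * (Fintype.card ι + 2 * E2)) (Real.log y))
    (AT.YY (6 * (Fintype.card ι + 2 * E2)) (Real.log y)), sum_mul]
  exact (abs_sum_le_sum_abs _ _).trans (sum_le_sum fun ρ _ => hC' ρ y hy)

end Pool.Agent.W307.RT
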