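import Mathlib
import Pool.Agent.W307.RT.RAT5
import Pool.Agent.W262.RK.MA4
import Pool.Agent.W762.RK2.EXP4b
import Pool.Agent.W216.RT.UB4
import Pool.Agent.W583.RT.FSB

/-! Project RT: the average of the local count for `Z/2 x Z/4`. -/

namespace Pool.Agent.W307.RT

open Finset Pool.Agent.W262.RK

/-- the classes -/
def c4 : Fin 4 → Fin 4 := ![0, 1, 2, 2]
/-- the multiplicities -/
def m4 : Fin 4 → ℕ := ![2, 2, 1, 1]
/-- the coefficients -/
def α4 : Fin 4 → ℤ := ![1, 2, -1, 3]
/-- the coefficients -/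
def β4 : Fin 4 → ℤ := ![0, 1, -1, 1]

theorem rat : RAT :=
  rat_of (Pool.Agent.W655.RK.blw_of (_root_.W37.RK.bl_of Pool.Agent.W505.RK.ls))
    (Pool.Agent.W655.RK.ep_of Pool.Agent.W586.RK.UB.ub) Pool.Agent.W655.RK.full
    Pool.Agent.W586.RK.UB.ub Pool.Agent.W216.RT.UB4.ub4 Pool.Agent.W583.RT.fsb

/-- index, is it chosen, has it a symbol? -/
abbrev X4 : Type := Fin 4 × Bool × Bool

/-- the symbols -/
def LX (x y : X4) : Bool := decide (c4 x.1 ≠ c4 y.1) && x.2.1 && y.2.2

/-- the indices with the character modulo 4 -/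
def NE (x : X4) : Bool := decide (c4 x.1 = 2) && x.2.1 && x.2.2

/-- the indices without symbols with these -/
def QE (x : X4) : Bool := (!x.2.1 && !x.2.2) || (decide (c4 x.1 = 2) && !(x.2.1 && x.2.2))

/-- the type -/
def ty (i : I4 c4) : X4 :=
  (i.1.1, decide (i.1.2.1 ≠ (false, false)), decide (i.1.2.2 ≠ (false, false)))

lemma c4_ne (j : Fin 4) : c4 j ≠ 3 := by revert j; decide

lemma L_ty_aux : ∀ c c' : Fin 4, c ≠ 3 → c' ≠ 3 → ∀ v x v' x' : Bool × Bool, Al c v x = true →
    Al c' v' x' = true → xor (x'.1 && v.1) (x'.2 && v.2) =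
      (decide (c ≠ c') && decide (v ≠ (false, false)) && decide (x' ≠ (false, false))) := by
  decide

lemma L_ty (i i' : I4 c4) : L4 c4 i i' = LX (ty i) (ty i') :=
  L_ty_aux _ _ (c4_ne _) (c4_ne _) _ _ _ _ i.2 i'.2

lemma ty_inj_aux : ∀ c : Fin 4, ∀ v x v' x' : Bool × Bool,
    (decide (c ≠ 3) && Al c v x && Al c v' x' &&
      (decide (v ≠ (false, false)) == decide (v' ≠ (false, false))) &&
      (decide (x ≠ (false, false)) == decide (x' ≠ (false, false)))) = true →
      v = v' ∧ x = x' := by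
  decide

lemma ty_inj : Function.Injective ty := by
  rintro ⟨⟨j, v, x⟩, h⟩ ⟨⟨j', v', x'⟩, h'⟩ hh
  unfold ty at hh
  simp only [Prod.mk.injEq] at hh
  obtain ⟨h1, h2, h3⟩ := hh
  subst h1
  obtain ⟨h4, h5⟩ := ty_inj_aux (c4 j) v x v' x' (by
    have e1 : Al (c4 j) v x = true := h
    have e2 : Al (c4 j) v' x' = true := h'
    rw [e1, e2, h2, h3]
    simp [c4_ne j])
  subst h4 h5
  rfl

lemma w4_half (i : I4 c4) : w4 c4 i = 1 / 2 := by
  unfold w4
  rw [if_neg (c4_ne _)]

/-- the indices with the character modulo 4 -/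
def N4s : Finset (I4 c4) := univ.filter (fun i => NE (ty i) = true)

lemma mem_N4s {i : I4 c4} : i ∈ N4s ↔ NE (ty i) = true := by simp [N4s]

/-- an element of `N4s` -/
def n0 : I4 c4 := ⟨(2, (false, true), (true, false)), by decide⟩

lemma ty_n0 : ty n0 = (2, true, true) := by decide

lemma Q_aux1 : ∀ x : X4, NE x = false → LX x (2, true, true) = false →
    LX (2, true, true) x = false → QE x = true := by
  decide

lemma Q_aux2 : ∀ x y : X4, QE x = true → NE y = true → LX x y = false ∧ LX y x = false := by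
  decide

lemma Q_aux3 : ∀ x : X4, QE x = true → NE x = false := by
  decide

lemma mem_Q {i : I4 c4} : i ∈ QN (L4 c4) N4s ↔ QE (ty i) = true := by
  rw [mem_QN, mem_N4s]
  constructor
  · rintro ⟨h1, h2⟩
    have hn : n0 ∈ N4s := by rw [mem_N4s, ty_n0]; decide
    obtain ⟨h3, h4⟩ := h2 n0 hn
    rw [L_ty, ty_n0] at h3 h4
    exact Q_aux1 _ (by simpa using h1) h3 h4
  · intro h
    refine ⟨by rw [Q_aux3 _ h]; simp, fun n hn => ?_⟩
    rw [mem_N4s] at hn
    rw [L_ty, L_ty]
    exact Q_aux2 _ _ h hn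

lemma card_Q : (univ.filter (fun x : X4 => QE x = true)).card = 8 := by decide

lemma QQ_aux : ∀ x y : X4, QE x = true → QE y = true → LX x y = false := by decide

lemma NN_aux : ∀ x y : X4, NE x = true → NE y = true → LX x y = false := by decide

lemma A_card : ∀ k : X4, NE k = false → QE k = false →
    (univ.filter (fun x : X4 => x.2 = (false, false) ∨ x.2 = k.2)).card ≤ 8 := by decide

lemma B_card : ∀ k : X4, NE k = false → QE k = false →
    (univ.filter (fun x : X4 => x.2 = (false, false) ∨ c4 x.1 = c4 k.1)).card ≤ 8 := by decide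

lemma AB_aux : ∀ k x y : X4, LX k x = LX x k → LX k y = LX y k → LX x y = LX y x →
    ¬ (x.2 = (false, false) ∨ x.2 = k.2) → (NE k = false ∧ QE k = false) →
    (y.2 = (false, false) ∨ c4 y.1 = c4 k.1) := by
  decide +kernel

lemma comb4 (U : Finset X4) (hU : ∀ x ∈ U, ∀ y ∈ U, LX x y = LX y x) {k : X4} (hk : k ∈ U)
    (h1 : NE k = false) (h2 : QE k = false) : U.card ≤ 8 := by
  by_cases h : ∀ x ∈ U, x.2 = (false, false) ∨ x.2 = k.2
  · refine (card_le_card fun x hx => ?_).trans (A_card k h1 h2)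
    exact mem_filter.2 ⟨mem_univ x, h x hx⟩
  · push Not at h
    obtain ⟨x, hx, hx1, hx2⟩ := h
    refine (card_le_card fun y hy => ?_).trans (B_card k h1 h2)
    exact mem_filter.2 ⟨mem_univ y, AB_aux k x y (hU k hk x hx) (hU k hk y hy) (hU x hx y hy)
      (by rw [not_or]; exact ⟨hx1, hx2⟩) ⟨h1, h2⟩⟩

lemma C_aux : ∀ b : X4, NE b = false → QE b = false → (univ.filter (fun x : X4 =>
    (QE x = true ∨ NE x = true) ∧ LX x b = LX b x)).card ≤ 7 := by decide

lemma sum_w4 (U : Finset (I4 c4)) : ∑ i ∈ U, w4 c4 i = (U.card : ℝ) / 2 := by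
  rw [sum_congr rfl fun i _ => w4_half i, sum_const, nsmul_eq_mul]
  ring

lemma card_le_of (U : Finset (I4 c4)) (V : Finset X4) (h : ∀ i ∈ U, ty i ∈ V) :
    U.card ≤ V.card := by
  rw [← card_image_of_injective U ty_inj]
  apply card_le_card
  intro x hx
  obtain ⟨i, hi, rfl⟩ := mem_image.1 hx
  exact h i hi

lemma kap4 : ∀ j, kapM c4 (fun _ => -1) m4 α4 β4 j = if c4 j = 2 then -1 else 1 := by decide

/-- the average of the local count -/
theorem nb4 : ∃ z0 : ℕ, ∀ z, z0 ≤ z → ∃ C' : ℝ, ∀ y, z < y →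
    ∑ s ∈ Tup (Fin 4) z y, NB c4 (fun j _ => kapM c4 (fun _ => -1) m4 α4 β4 j) s *
      ∏ j, gw 1 (Fintype.card (Fin 4)) (s j) ≤ C' * (Real.log y) ^ (Fintype.card (Fin 4)) := by
  set κ : Fin 4 → Fin 3 → ℤ := fun j _ => kapM c4 (fun _ => -1) m4 α4 β4 j with hκdef
  have hκ : ∀ j k, κ j k ≠ 0 := by
    intro j k
    rw [hκdef]
    simp only
    rw [kap4]
    split_ifs <;> norm_num
  obtain ⟨z0, hz0⟩ := rat (I4 c4) (w4 c4) (L4 c4) (κ4 c4 κ) (Fintype.card (Fin 4))
    ((Fintype.card (Fin 4) : ℕ) : ℝ) N4s (w4_pos c4) (L4_self c4) (κ4_ne c4 κ hκ)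
    (fun n hn => by
      rw [mem_N4s] at hn
      refine ⟨1, ?_⟩
      unfold NE ty at hn
      simp only [Bool.and_eq_true, decide_eq_true_eq] at hn
      obtain ⟨⟨h1, h2⟩, h3⟩ := hn
      unfold κ4
      rw [if_neg (by rw [not_or]; exact ⟨h2, h3⟩), if_neg (c4_ne _), hκdef]
      simp only
      rw [kap4, if_pos h1]
      norm_num)
    (fun n hn m hm => by
      rw [mem_N4s] at hn hm
      rw [L_ty]
      exact NN_aux _ _ hn hm)
    (fun i hi j hj => by
      rw [mem_Q] at hi hj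
      rw [L_ty]
      exact QQ_aux _ _ hi hj)
    (by
      rw [sum_w4]
      have h1 : (QN (L4 c4) N4s).card ≤ 8 := by
        refine (card_le_of _ (univ.filter (fun x : X4 => QE x = true)) fun i hi => ?_).trans
          (le_of_eq card_Q)
        rw [mem_Q] at hi
        exact mem_filter.2 ⟨mem_univ _, hi⟩
      have h2 : ((QN (L4 c4) N4s).card : ℝ) ≤ 8 := by exact_mod_cast h1
      rw [Fintype.card_fin]
      push_cast
      linarith)
    (fun U hU hk => by
      obtain ⟨k, hk, hk1, hk2⟩ := hk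
      rw [mem_N4s] at hk1
      rw [mem_Q] at hk2
      rw [sum_w4]
      have h1 : U.card ≤ 8 := by
        rw [← card_image_of_injective U ty_inj]
        apply comb4 _ _ (mem_image_of_mem ty hk) (by simpa using hk1) (by simpa using hk2)
        intro x hx y hy
        obtain ⟨i, hi, rfl⟩ := mem_image.1 hx
        obtain ⟨j, hj, rfl⟩ := mem_image.1 hy
        rw [← L_ty, ← L_ty]
        exact hU i hi j hj
      have h2 : (U.card : ℝ) ≤ 8 := by exact_mod_cast h1
      rw [Fintype.card_fin]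
      push_cast
      linarith)
    (fun b hb1 hb2 => by
      rw [mem_N4s] at hb1
      rw [mem_Q] at hb2
      rw [sum_w4]
      have h1 : ((QN (L4 c4) N4s ∪ N4s).filter (fun i => L4 c4 i b = L4 c4 b i)).card ≤ 7 := by
        refine (card_le_of _ _ fun i hi => ?_).trans
          (C_aux (ty b) (by simpa using hb1) (by simpa using hb2))
        rw [mem_filter, mem_union, mem_Q, mem_N4s, L_ty, L_ty] at hi
        exact mem_filter.2 ⟨mem_univ _, hi⟩
      have h2 : (((QN (L4 c4) N4s ∪ N4s).filter (fun i => L4 c4 i b = L4 c4 b i)).card : ℝ) ≤ 7 := by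
        exact_mod_cast h1
      rw [Fintype.card_fin]
      push_cast
      linarith)
  refine ⟨max z0 (2 + ∑ j, ∑ k, (κ j k).natAbs), fun z hz => ?_⟩
  obtain ⟨C, hC⟩ := hz0 z (le_trans (le_max_left _ _) hz)
  refine ⟨C, fun y hy => ?_⟩
  have hz2 : 2 + ∑ j, ∑ k, (κ j k).natAbs ≤ z := le_trans (le_max_right _ _) hz
  rw [Pool.Agent.W762.RK2.exp4 (Fin 4) c4 κ _ z y (by omega) hκ (fun j k => by
    have h1 := single_le_sum (f := fun k => (κ j k).natAbs) (fun _ _ => Nat.zero_le _) (mem_univ k)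
    have h2 := single_le_sum (f := fun j => ∑ k, (κ j k).natAbs) (fun _ _ => Nat.zero_le _)
      (mem_univ j)
    omega)]
  refine (le_trans (le_abs_self _) (hC y hy)).trans (le_of_eq ?_)
  rw [Real.rpow_natCast]

end Pool.Agent.W307.RT
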