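import Mathlib
import Pool.Agent.W307.RT.NB4
import Pool.Agent.W307.RT.Main6
import Pool.Agent.W605.RT.PAR4
import Pool.Agent.W29.RT.LOW4

/-! Project RT: the curves with `Z/2 x Z/4`. -/

namespace Pool.Agent.W307.RT

open Finset Pool.Agent.W262.RK

lemma fc40 : fc c4 0 = {0} := by decide
lemma fc41 : fc c4 1 = {1} := by decide
lemma fc42 : fc c4 2 = {2, 3} := by decide

lemma FM40 (u v : ℤ) : FM c4 (fun _ => -1) m4 (fv α4 β4 u v) 0 =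
    -(M4 u (v + (2 : ℕ) * u)) := by
  unfold FM M4
  rw [fc40, prod_singleton]
  change (-1 : ℤ) * (1 * u + 0 * v) ^ 2 = _
  ring

lemma FM41 (u v : ℤ) : FM c4 (fun _ => -1) m4 (fv α4 β4 u v) 1 =
    -(N4 u (v + (2 : ℕ) * u)) := by
  unfold FM N4
  rw [fc41, prod_singleton]
  change (-1 : ℤ) * (2 * u + 1 * v) ^ 2 = _
  push_cast
  ring

lemma FM42 (u v : ℤ) : FM c4 (fun _ => -1) m4 (fv α4 β4 u v) 2 =
    -(M4 u (v + (2 : ℕ) * u)) + N4 u (v + (2 : ℕ) * u) := by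
  unfold FM M4 N4
  rw [fc42, prod_pair (by decide)]
  change (-1 : ℤ) * ((-1 * u + -1 * v) ^ 1 * (3 * u + 1 * v) ^ 1) = _
  push_cast
  ring

theorem box4 : ∃ C : ℝ, 0 ≤ C ∧ ∀ T : ℕ, 1 ≤ T → ∑ t ∈ (Box T).filter (fun t : ℤ × ℤ =>
      IsCoprime t.1 t.2 ∧ M4 t.1 t.2 ≠ 0 ∧ N4 t.1 t.2 ≠ 0 ∧ M4 t.1 t.2 ≠ N4 t.1 t.2),
      (2 : ℝ) ^ Module.finrank ℤ (EAB (-(M4 t.1 t.2)) (-(N4 t.1 t.2))).toAffine.Point ≤
        C * (T : ℝ) ^ 2 := by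
  refine fam avg2 c4 (fun _ => -1) m4 α4 β4 (by decide) (by decide) (by decide) (by decide)
    (by decide) (by decide) (fun j => ?_) (fun u v => ?_) nb4 2 M4 N4 FM40 FM41
  · revert j
    decide
  · rw [FM40, FM41, FM42]
    ring

/-- **Main theorem for Z/2 x Z/4** -/
theorem main4 : ∃ C : ℝ, ∀ H : ℕ, ∑ c ∈ Cv 4 H,
    (2 : ℝ) ^ Module.finrank ℤ (Sh c.1 c.2).toAffine.Point ≤ C * (Cv 4 H).card :=
  final_of (by norm_num) (Pool.Agent.W605.RT.par4_of Pool.Agent.W261.RT.iso)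
    Pool.Agent.W29.RT.low4 box4

end Pool.Agent.W307.RT
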