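import Mathlib
import Pool.Agent.W307.RT.Defs

/-! Project RT: subgroups `Z/2 x Z/m`, and the number of the curves tends to infinity. -/

namespace Pool.Agent.W307.RT

open Finset Filter

/-- subgroups `Z/2 x Z/m` -/
lemma tors_iff {G : Type*} [AddCommGroup G] {m : ℕ} :
    (∃ P Q : G, addOrderOf P = m ∧ addOrderOf Q = 2 ∧ Q ∉ AddSubgroup.zmultiples P) ↔
      ∃ f : ZMod 2 × ZMod m →+ G, Function.Injective f := by
  constructor
  · rintro ⟨P, Q, hP, hQ, hQP⟩
    have h2 : (zmultiplesHom G Q) ((2 : ℕ) : ℤ) = 0 := by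
      rw [zmultiplesHom_apply, natCast_zsmul, ← hQ]
      exact addOrderOf_nsmul_eq_zero Q
    have h4 : (zmultiplesHom G P) ((m : ℕ) : ℤ) = 0 := by
      rw [zmultiplesHom_apply, natCast_zsmul, ← hP]
      exact addOrderOf_nsmul_eq_zero P
    refine ⟨(ZMod.lift 2 ⟨zmultiplesHom G Q, h2⟩).coprod (ZMod.lift m ⟨zmultiplesHom G P, h4⟩), ?_⟩
    rw [injective_iff_map_eq_zero]
    rintro ⟨a, b⟩ hab
    obtain ⟨a, rfl⟩ := ZMod.intCast_surjective a
    obtain ⟨b, rfl⟩ := ZMod.intCast_surjective b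
    rw [AddMonoidHom.coprod_apply, ZMod.lift_coe, ZMod.lift_coe, zmultiplesHom_apply,
      zmultiplesHom_apply] at hab
    by_cases ha : (2 : ℤ) ∣ a
    · have h1 : a • Q = 0 := by
        rw [← addOrderOf_dvd_iff_zsmul_eq_zero, hQ]
        exact_mod_cast ha
      rw [h1, zero_add] at hab
      rw [← addOrderOf_dvd_iff_zsmul_eq_zero, hP] at hab
      refine Prod.ext ?_ ?_
      · exact (ZMod.intCast_zmod_eq_zero_iff_dvd a 2).2 (by exact_mod_cast ha)
      · exact (ZMod.intCast_zmod_eq_zero_iff_dvd b m).2 hab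
    · exfalso
      apply hQP
      obtain ⟨k, hk⟩ : ∃ k, a = 2 * k + 1 := ⟨a / 2, by omega⟩
      have h1 : a • Q = Q := by
        rw [hk, add_zsmul, one_zsmul]
        have : (2 * k) • Q = 0 := by
          rw [← addOrderOf_dvd_iff_zsmul_eq_zero, hQ]
          exact_mod_cast Dvd.intro k rfl
        rw [this, zero_add]
      rw [h1] at hab
      rw [AddSubgroup.mem_zmultiples_iff]
      refine ⟨-b, ?_⟩
      rw [neg_zsmul]
      exact (eq_neg_of_add_eq_zero_left hab).symm
  · rintro ⟨f, hf⟩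
    refine ⟨f (0, 1), f (1, 0), ?_, ?_, ?_⟩
    · rw [addOrderOf_injective f hf, Prod.addOrderOf_mk, addOrderOf_zero, ZMod.addOrderOf_one,
        Nat.lcm_one_left]
    · rw [addOrderOf_injective f hf, Prod.addOrderOf_mk, addOrderOf_zero, ZMod.addOrderOf_one,
        Nat.lcm_one_right]
    · intro h
      rw [AddSubgroup.mem_zmultiples_iff] at h
      obtain ⟨k, hk⟩ := h
      rw [← map_zsmul] at hk
      have := congrArg Prod.fst (hf hk)
      simp at this

/-- the number of the curves tends to infinity -/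
lemma tendsto_of_low {m k : ℕ} (h : LOW m k) :
    Tendsto (fun H : ℕ => (Cv m H).card) atTop atTop := by
  obtain ⟨c, C, T0, hc, h⟩ := h
  rw [tendsto_atTop_atTop]
  intro b
  obtain ⟨n, hn⟩ := exists_nat_gt ((b : ℝ) / c)
  set T := max (max n T0) 1 with hT
  have h1 : (b : ℝ) ≤ c * (T : ℝ) ^ 2 := by
    rw [div_lt_iff₀ hc] at hn
    have hT1 : (1 : ℝ) ≤ T := by exact_mod_cast (le_max_right (max n T0) 1)
    have hTn : (n : ℝ) ≤ T := by
      exact_mod_cast (le_max_left n T0).trans (le_max_left (max n T0) 1)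
    have h2 : (T : ℝ) ≤ (T : ℝ) ^ 2 := by nlinarith
    nlinarith
  refine ⟨C * T ^ k, fun H hH => ?_⟩
  have h3 := h T H ((le_max_right n T0).trans (le_max_left _ 1)) hH
  exact_mod_cast h1.trans h3

end Pool.Agent.W307.RT
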